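import Pool.Agent.H858RG.Chain

set_option autoImplicit false
set_option linter.unusedSectionVars false

namespace Pool.Agent.H858RG

open Finset Filter Topology

/-- punctured neighbourhoods of `0` -/
abbrev l0 : Filter ℝ := 𝓝[≠] (0 : ℝ)

theorem l0_ne : ∀ᶠ δ : ℝ in l0, (δ : ℂ) ≠ 0 := by
  filter_upwards [self_mem_nhdsWithin] with δ hδ
  exact_mod_cast hδ

theorem l0_id : Tendsto (fun δ : ℝ => (δ : ℂ)) l0 (𝓝 0) := by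
  have : Tendsto (fun δ : ℝ => (δ : ℂ)) (𝓝 0) (𝓝 ((0 : ℝ) : ℂ)) :=
    Complex.continuous_ofReal.tendsto 0
  rw [Complex.ofReal_zero] at this
  exact this.mono_left nhdsWithin_le_nhds

theorem div_lim {f : ℝ → ℂ} {c ρ : ℂ} (h : Tendsto (fun δ : ℝ => (f δ - c) / (δ : ℂ)) l0 (𝓝 ρ)) :
    Tendsto f l0 (𝓝 c) := by
  have h1 := (h.mul l0_id).add_const c
  rw [mul_zero, zero_add] at h1
  refine h1.congr' ?_
  filter_upwards [l0_ne] with δ hδ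
  field_simp
  ring

theorem div_lim0 {f : ℝ → ℂ} {ρ : ℂ} (h : Tendsto (fun δ : ℝ => f δ / (δ : ℂ)) l0 (𝓝 ρ)) :
    Tendsto f l0 (𝓝 0) := div_lim (c := 0) (by simpa using h)

theorem tdiv {f g : ℝ → ℂ} {a b : ℂ} (hf : Tendsto f l0 (𝓝 a)) (hg : Tendsto g l0 (𝓝 b))
    (hb : b ≠ 0) : Tendsto (fun δ => f δ / g δ) l0 (𝓝 (a / b)) := hf.div hg hb

theorem root_lemma {A B C : ℝ → ℂ} {A0 B0 C1 : ℂ} (hA : Tendsto A l0 (𝓝 A0))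
    (hB : Tendsto B l0 (𝓝 B0))
    (hC : Tendsto (fun δ : ℝ => C δ / (δ : ℂ)) l0 (𝓝 C1)) (hA0 : A0 ≠ 0) (hB0 : B0 ≠ 0) :
    ∃ y1 y2 : ℝ → ℂ, (∀ᶠ δ in l0, A δ * (y1 δ + y2 δ) = - B δ ∧ A δ * (y1 δ * y2 δ) = C δ) ∧
      Tendsto (fun δ : ℝ => y1 δ / (δ : ℂ)) l0 (𝓝 (-C1 / B0)) ∧
      Tendsto y2 l0 (𝓝 (-B0 / A0)) := by
  have hC0 : Tendsto C l0 (𝓝 0) := div_lim0 hC
  have hAne : ∀ᶠ δ in l0, A δ ≠ 0 := hA.eventually_ne hA0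
  have hBne : ∀ᶠ δ in l0, B δ ≠ 0 := hB.eventually_ne hB0
  obtain ⟨z, hz⟩ : ∃ z : ℝ → ℂ, z = fun δ => 1 - 4 * A δ * C δ / (B δ) ^ 2 := ⟨_, rfl⟩
  have hz1 : Tendsto z l0 (𝓝 1) := by
    have := tdiv ((hA.const_mul 4).mul hC0) (hB.pow 2) (pow_ne_zero 2 hB0)
    have h2 := this.const_sub 1
    rw [hz]
    simpa using h2
  obtain ⟨σ, hσd⟩ : ∃ σ : ℝ → ℂ, σ = fun δ => (z δ) ^ ((2 : ℕ) : ℂ)⁻¹ := ⟨_, rfl⟩
  have hσ : Tendsto σ l0 (𝓝 1) := by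
    have h1 : ContinuousAt (fun x : ℂ => x ^ (((2 : ℕ) : ℂ)⁻¹)) 1 :=
      continuousAt_cpow_const Complex.one_mem_slitPlane
    have h2 := h1.tendsto.comp hz1
    rw [Complex.one_cpow] at h2
    rw [hσd]
    exact h2
  have hσ2 : ∀ δ, σ δ ^ 2 = z δ := fun δ => by
    rw [hσd]; exact Complex.cpow_nat_inv_pow _ two_ne_zero
  obtain ⟨y2, hy2d⟩ : ∃ y2 : ℝ → ℂ, y2 = fun δ => (- B δ - B δ * σ δ) / (2 * A δ) := ⟨_, rfl⟩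
  have hy2 : Tendsto y2 l0 (𝓝 (-B0 / A0)) := by
    have h1 := tdiv (hB.neg.sub (hB.mul hσ)) (hA.const_mul 2) (mul_ne_zero two_ne_zero hA0)
    rw [hy2d]
    have h2 : (-B0 - B0 * 1) / (2 * A0) = -B0 / A0 := by
      field_simp
      ring
    rw [h2] at h1
    exact h1
  have hy2ne : ∀ᶠ δ in l0, y2 δ ≠ 0 :=
    hy2.eventually_ne (div_ne_zero (neg_ne_zero.2 hB0) hA0)
  refine ⟨fun δ => C δ / (A δ * y2 δ), y2, ?_, ?_, hy2⟩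
  · filter_upwards [hAne, hBne, hy2ne] with δ h1 h2 h3
    have hroot : A δ * y2 δ ^ 2 + B δ * y2 δ + C δ = 0 := by
      have h4 := hσ2 δ
      have h5 : y2 δ * (2 * A δ) = - B δ - B δ * σ δ := by rw [hy2d]; field_simp
      have h6 : B δ ^ 2 * z δ = B δ ^ 2 - 4 * A δ * C δ := by rw [hz]; field_simp
      have h7 : 4 * A δ * (A δ * y2 δ ^ 2 + B δ * y2 δ + C δ) = 0 := by
        linear_combination (y2 δ * (2 * A δ) + (-B δ - B δ * σ δ) + 2 * B δ) * h5 +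
          B δ ^ 2 * h4 + h6
      exact (mul_eq_zero.1 h7).resolve_left (mul_ne_zero (by norm_num) h1)
    constructor
    · field_simp
      linear_combination hroot
    · field_simp
  · have h1 := tdiv hC (hA.mul hy2) (mul_ne_zero hA0 (div_ne_zero (neg_ne_zero.2 hB0) hA0))
    have h2 : C1 / (A0 * (-B0 / A0)) = -C1 / B0 := by field_simp
    rw [h2] at h1
    refine h1.congr fun δ => ?_
    rw [div_div, div_div]
    congr 1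
    ring

variable (r g : ℕ → ℝ)

theorem E_step (n : ℕ) (t : ℝ) (y y1 y2 : ℂ)
    (e1 : qA (r (n + 1) : ℂ) (r n : ℂ) y 1 * (y1 + y2) =
      - qB (r (n + 1) : ℂ) (r n : ℂ) (g n : ℂ) y 1)
    (e2 : qA (r (n + 1) : ℂ) (r n : ℂ) y 1 * (y1 * y2) = qC (r (n + 1) : ℂ) (r n : ℂ) y 1) :
    (E r g (n + 1)).1 t y 1 = (qA (r (n + 1) : ℂ) (r n : ℂ) y 1) ^ (2 ^ (n + 1)) *
      ((E r g n).1 t y1 1 * (E r g n).1 t y2 1) := by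
  obtain ⟨A, hA⟩ : ∃ A, A = qA (r (n + 1) : ℂ) (r n : ℂ) y 1 := ⟨_, rfl⟩
  rw [← hA] at e1 e2 ⊢
  rw [E_succ r g n t y 1 y1 1 (A * y2) A (by rw [one_mul]; exact hA) (by linear_combination -e1)
    (by linear_combination e2)]
  have h2 : (E r g n).1 t (A * y2) A = A ^ (2 ^ (n + 1)) * (E r g n).1 t y2 1 := by
    rw [← E_smul, mul_one]
  rw [h2]; ring

theorem ev_lim {N : ℕ} (F : Frm N) {τ : ℝ → ℝ} {t0 : ℝ} {y : ℝ → ℂ} {y0 : ℂ}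
    (hτ : Tendsto τ l0 (𝓝 t0)) (hy : Tendsto y l0 (𝓝 y0)) :
    Tendsto (fun δ => F.ev (τ δ) (y δ) 1) l0 (𝓝 (F.ev t0 y0 1)) := by
  have h2 := F.ev_cont
  have h3 : Tendsto (fun δ : ℝ => ((τ δ, y δ, (1 : ℂ)) : ℝ × ℂ × ℂ)) l0
      (𝓝 ((t0, y0, (1 : ℂ)) : ℝ × ℂ × ℂ)) :=
    hτ.prodMk_nhds (hy.prodMk_nhds tendsto_const_nhds)
  have h4 := Filter.Tendsto.comp (g := fun x : ℝ × ℂ × ℂ => F.ev x.1 x.2.1 x.2.2)
    (h2.tendsto ((t0, y0, (1 : ℂ)) : ℝ × ℂ × ℂ)) h3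
  simpa only [Function.comp_def] using h4

theorem E_lim (n : ℕ) {τ : ℝ → ℝ} {t0 : ℝ} {y : ℝ → ℂ} {y0 : ℂ} (hτ : Tendsto τ l0 (𝓝 t0))
    (hy : Tendsto y l0 (𝓝 y0)) :
    Tendsto (fun δ => (E r g n).1 (τ δ) (y δ) 1) l0 (𝓝 ((E r g n).1 t0 y0 1)) := by
  have h1 : (fun δ => (E r g n).1 (τ δ) (y δ) 1) =
      fun δ => (Classical.choose (E r g n).2).ev (τ δ) (y δ) 1 := by
    funext δ; rw [E_ev]
  rw [h1, E_ev]
  exact ev_lim _ hτ hy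

variable {r g} (hG : Gen r g)
include hG

/-- the step from a node going to `0` linearly -/
theorem stepZ (n : ℕ) (hn : n < 5) {y : ℝ → ℂ} {ρ : ℂ}
    (hy : Tendsto (fun δ : ℝ => y δ / (δ : ℂ)) l0 (𝓝 ρ)) :
    ∃ y1 y2 : ℝ → ℂ, (∀ᶠ δ in l0,
      qA (r (n + 1) : ℂ) (r n : ℂ) (y δ) 1 * (y1 δ + y2 δ) =
        - qB (r (n + 1) : ℂ) (r n : ℂ) (g n : ℂ) (y δ) 1 ∧
      qA (r (n + 1) : ℂ) (r n : ℂ) (y δ) 1 * (y1 δ * y2 δ) =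
        qC (r (n + 1) : ℂ) (r n : ℂ) (y δ) 1) ∧
      Tendsto (fun δ : ℝ => y1 δ / (δ : ℂ)) l0 (𝓝 (-(r n / r (n + 1)) * ρ)) ∧
      Tendsto (fun δ : ℝ => (y2 δ - 1 / (r n : ℂ)) / (δ : ℂ)) l0
        (𝓝 (ρ * ((g n : ℂ) - (r (n + 1) : ℂ) ^ 2) / (r (n + 1) * r n))) ∧
      ∃ A0 : ℂ, A0 ≠ 0 ∧ Tendsto (fun δ => qA (r (n + 1) : ℂ) (r n : ℂ) (y δ) 1) l0 (𝓝 A0) := by
  have hr := hG.rC (n + 1)
  have hr' := hG.rC n
  have hy0 : Tendsto y l0 (𝓝 0) := div_lim0 hy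
  have hA : Tendsto (fun δ => qA (r (n + 1) : ℂ) (r n : ℂ) (y δ) 1) l0
      (𝓝 (-((r n : ℂ) * r (n + 1)))) := by
    have h1 := ((hy0.sub_const (r (n + 1) : ℂ)).const_mul (r n : ℂ))
    have h2 : (r n : ℂ) * (0 - r (n + 1)) = -((r n : ℂ) * r (n + 1)) := by ring
    rw [h2] at h1
    refine h1.congr fun δ => ?_
    unfold qA; ring
  have hB : Tendsto (fun δ => qB (r (n + 1) : ℂ) (r n : ℂ) (g n : ℂ) (y δ) 1) l0
      (𝓝 (r (n + 1) : ℂ)) := by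
    have h1 := (((hy0.const_mul (r (n + 1) : ℂ)).const_sub 1).mul
      (hy0.const_sub (r (n + 1) : ℂ))).add (hy0.const_mul ((g n : ℂ) - (r n : ℂ) ^ 2))
    have h2 : (1 - (r (n + 1) : ℂ) * 0) * ((r (n + 1) : ℂ) - 0) + ((g n : ℂ) - (r n : ℂ) ^ 2) * 0
      = r (n + 1) := by ring
    rw [h2] at h1
    refine h1.congr fun δ => ?_
    unfold qB; ring
  have hC : Tendsto (fun δ : ℝ => qC (r (n + 1) : ℂ) (r n : ℂ) (y δ) 1 / (δ : ℂ)) l0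
      (𝓝 ((r n : ℂ) * ρ)) := by
    have h1 := ((hy.const_mul (r n : ℂ)).mul ((hy0.const_mul (r (n + 1) : ℂ)).const_sub 1))
    have h2 : (r n : ℂ) * ρ * (1 - (r (n + 1) : ℂ) * 0) = (r n : ℂ) * ρ := by ring
    rw [h2] at h1
    refine h1.congr fun δ => ?_
    unfold qC; ring
  have hA0 : -((r n : ℂ) * r (n + 1)) ≠ 0 := neg_ne_zero.2 (mul_ne_zero hr' hr)
  obtain ⟨y1, y2, he, h1, h2⟩ := root_lemma hA hB hC hA0 hr
  refine ⟨y1, y2, he, ?_, ?_, _, hA0, hA⟩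
  · convert h1 using 2
    field_simp
  · have h3 := (tdiv ((hy.mul (((hy0.const_mul (r (n + 1) : ℂ)).const_add
      ((g n : ℂ) - (r (n + 1) : ℂ) ^ 2 - (r n : ℂ) ^ 2))))) hA hA0).neg.sub h1
    have h4 : -(ρ * ((g n : ℂ) - (r (n + 1) : ℂ) ^ 2 - (r n : ℂ) ^ 2 + (r (n + 1) : ℂ) * 0) /
        -((r n : ℂ) * r (n + 1))) - -((r n : ℂ) * ρ) / r (n + 1) =
        ρ * ((g n : ℂ) - (r (n + 1) : ℂ) ^ 2) / (r (n + 1) * r n) := by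
      field_simp
      ring
    rw [h4] at h3
    refine h3.congr' ?_
    filter_upwards [he, l0_ne, hA.eventually_ne hA0] with δ h5 hδ hAδ
    have h6 : qA (r (n + 1) : ℂ) (r n : ℂ) (y δ) 1 * (y2 δ - 1 / (r n : ℂ)) =
        -(y δ * ((g n : ℂ) - (r (n + 1) : ℂ) ^ 2 - (r n : ℂ) ^ 2 + (r (n + 1) : ℂ) * y δ)) -
        qA (r (n + 1) : ℂ) (r n : ℂ) (y δ) 1 * y1 δ := by
      have h7 : qA (r (n + 1) : ℂ) (r n : ℂ) (y δ) 1 * (1 / (r n : ℂ)) = y δ - r (n + 1) := by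
        unfold qA; field_simp
      have h8 : qB (r (n + 1) : ℂ) (r n : ℂ) (g n : ℂ) (y δ) 1 = (1 - r (n + 1) * y δ) *
        (r (n + 1) - y δ) + ((g n : ℂ) - (r n : ℂ) ^ 2) * y δ := by unfold qB; ring
      rw [h8] at h5
      linear_combination h5.1 - h7
    have h9 : y2 δ - 1 / (r n : ℂ) = (-(y δ * ((g n : ℂ) - (r (n + 1) : ℂ) ^ 2 - (r n : ℂ) ^ 2 +
        (r (n + 1) : ℂ) * y δ))) / qA (r (n + 1) : ℂ) (r n : ℂ) (y δ) 1 - y1 δ := by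
      rw [eq_sub_iff_add_eq, eq_div_iff hAδ]
      linear_combination h6
    rw [h9]
    ring

/-- the step from a node going to the pinned position -/
theorem stepM (n : ℕ) (hn : n < 5) {y : ℝ → ℂ} {ρ : ℂ}
    (hy : Tendsto (fun δ : ℝ => (y δ - 1 / (r (n + 1) : ℂ)) / (δ : ℂ)) l0 (𝓝 ρ)) :
    ∃ y1 y2 : ℝ → ℂ, (∀ᶠ δ in l0,
      qA (r (n + 1) : ℂ) (r n : ℂ) (y δ) 1 * (y1 δ + y2 δ) =
        - qB (r (n + 1) : ℂ) (r n : ℂ) (g n : ℂ) (y δ) 1 ∧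
      qA (r (n + 1) : ℂ) (r n : ℂ) (y δ) 1 * (y1 δ * y2 δ) =
        qC (r (n + 1) : ℂ) (r n : ℂ) (y δ) 1) ∧
      Tendsto (fun δ : ℝ => y1 δ / (δ : ℂ)) l0
        (𝓝 (r (n + 1) * r n * ρ / ((g n : ℂ) - (r n : ℂ) ^ 2))) ∧
      Tendsto y2 l0 (𝓝 (GG r g n : ℂ)) ∧
      ∃ A0 : ℂ, A0 ≠ 0 ∧ Tendsto (fun δ => qA (r (n + 1) : ℂ) (r n : ℂ) (y δ) 1) l0 (𝓝 A0) := by
  have hr := hG.rC (n + 1)
  have hr' := hG.rC n
  have hsq := sq_ne hG n n (by omega) (by omega)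
  have h3' : (r (n + 1) : ℂ) ^ 2 - 1 ≠ 0 := by exact_mod_cast r_sq_ne hG (n + 1) (by omega)
  have hy0 : Tendsto y l0 (𝓝 (1 / (r (n + 1) : ℂ))) := div_lim hy
  have hA : Tendsto (fun δ => qA (r (n + 1) : ℂ) (r n : ℂ) (y δ) 1) l0
      (𝓝 ((r n : ℂ) * (1 / (r (n + 1) : ℂ) - r (n + 1)))) := by
    have h1 := ((hy0.sub_const (r (n + 1) : ℂ)).const_mul (r n : ℂ))
    refine h1.congr fun δ => ?_
    unfold qA; ring
  have hB : Tendsto (fun δ => qB (r (n + 1) : ℂ) (r n : ℂ) (g n : ℂ) (y δ) 1) l0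
      (𝓝 (((g n : ℂ) - (r n : ℂ) ^ 2) / (r (n + 1) : ℂ))) := by
    have h1 := (((hy0.const_mul (r (n + 1) : ℂ)).const_sub 1).mul
      (hy0.const_sub (r (n + 1) : ℂ))).add (hy0.const_mul ((g n : ℂ) - (r n : ℂ) ^ 2))
    have h2 : (1 - (r (n + 1) : ℂ) * (1 / (r (n + 1) : ℂ))) *
        ((r (n + 1) : ℂ) - 1 / (r (n + 1) : ℂ)) + ((g n : ℂ) - (r n : ℂ) ^ 2) *
        (1 / (r (n + 1) : ℂ)) = ((g n : ℂ) - (r n : ℂ) ^ 2) / (r (n + 1) : ℂ) := by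
      field_simp
      ring
    rw [h2] at h1
    refine h1.congr fun δ => ?_
    unfold qB; ring
  have hC : Tendsto (fun δ : ℝ => qC (r (n + 1) : ℂ) (r n : ℂ) (y δ) 1 / (δ : ℂ)) l0
      (𝓝 (-((r n : ℂ) * ρ))) := by
    have h1 := (((hy0.const_mul (r n : ℂ)).mul (hy.const_mul (r (n + 1) : ℂ)))).neg
    have h2 : -((r n : ℂ) * (1 / (r (n + 1) : ℂ)) * ((r (n + 1) : ℂ) * ρ)) = -((r n : ℂ) * ρ) := by
      field_simp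
    rw [h2] at h1
    refine h1.congr fun δ => ?_
    unfold qC
    field_simp
    ring
  have hA0 : (r n : ℂ) * (1 / (r (n + 1) : ℂ) - r (n + 1)) ≠ 0 := by
    refine mul_ne_zero hr' ?_
    intro h
    apply h3'
    field_simp at h
    linear_combination -h
  have hB0 : ((g n : ℂ) - (r n : ℂ) ^ 2) / (r (n + 1) : ℂ) ≠ 0 := div_ne_zero hsq hr
  obtain ⟨y1, y2, he, h1, h2⟩ := root_lemma hA hB hC hA0 hB0
  refine ⟨y1, y2, he, ?_, ?_, _, hA0, hA⟩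
  · convert h1 using 2
    field_simp
  · convert h2 using 2
    unfold GG
    have h5 : 1 / (r (n + 1) : ℂ) - r (n + 1) = -((r (n + 1) : ℂ) ^ 2 - 1) / r (n + 1) := by
      field_simp
      ring
    push_cast
    rw [h5]
    field_simp

end Pool.Agent.H858RG
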