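import Pool.Agent.H858RG.Asy

set_option autoImplicit false
set_option linter.unusedSectionVars false

namespace Pool.Agent.H858RG

open Finset Filter Topology

/-- exponents -/
def ex (a b : ℕ) : ℕ → ℕ × ℕ
  | 0 => (a, b)
  | (n + 1) => ((ex a b n).1 + (ex a b n).2, (ex a b n).1)

/-- the squared lengths used up to now -/
def VS (g : ℕ → ℝ) (n : ℕ) : Set ℂ := (fun i => (g i : ℂ)) '' ((Finset.Icc n 4 : Finset ℕ) : Set ℕ)

/-- order of vanishing -/
def Ord (f : ℝ → ℂ) (k : ℕ) : Prop :=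
  ∃ L : ℂ, L ≠ 0 ∧ Tendsto (fun δ : ℝ => f δ / (δ : ℂ) ^ k) l0 (𝓝 L)

theorem comb {f f1 f2 A : ℝ → ℂ} {A0 : ℂ} {a b N : ℕ} (hA : Tendsto A l0 (𝓝 A0)) (hA0 : A0 ≠ 0)
    (h1 : Ord f1 a) (h2 : Ord f2 b) (h : ∀ᶠ δ in l0, f δ = A δ ^ N * (f1 δ * f2 δ)) :
    Ord f (a + b) := by
  obtain ⟨L1, hL1, h1⟩ := h1
  obtain ⟨L2, hL2, h2⟩ := h2
  refine ⟨A0 ^ N * (L1 * L2), mul_ne_zero (pow_ne_zero _ hA0) (mul_ne_zero hL1 hL2), ?_⟩
  refine ((hA.pow N).mul (h1.mul h2)).congr' ?_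
  filter_upwards [h] with δ hδ
  rw [hδ, pow_add]
  ring

theorem Ord_zero {f : ℝ → ℂ} {L : ℂ} (hL : L ≠ 0) (h : Tendsto f l0 (𝓝 L)) : Ord f 0 :=
  ⟨L, hL, by simpa using h⟩

theorem VS_mono (r g : ℕ → ℝ) (n : ℕ) : K0 r (VS g (n + 1)) ≤ K0 r (VS g n) := by
  refine K0_mono r (Set.image_mono ?_)
  rw [Finset.coe_subset]
  exact Finset.Icc_subset_Icc_left (by omega)

theorem g_VS (r g : ℕ → ℝ) (n : ℕ) (hn : n < 5) : (g n : ℂ) ∈ K0 r (VS g n) :=
  V_mem r _ ⟨n, by simp; omega, rfl⟩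

theorem slopeZ1 {r g : ℕ → ℝ} {n : ℕ} (hn : n < 5) {ρ : ℂ} (h : ρ ∈ K0 r (VS g n)) :
    -(r n / r (n + 1)) * ρ ∈ K0 r (VS g n) := by
  have h1 := r_mem r (VS g n) (i := n) (by omega)
  have h2 := r_mem r (VS g n) (i := n + 1) (by omega)
  exact IntermediateField.mul_mem _ (IntermediateField.neg_mem _ (IntermediateField.div_mem _ h1 h2)) h

theorem slopeZ2 {r g : ℕ → ℝ} {n : ℕ} (hn : n < 5) {ρ : ℂ} (h : ρ ∈ K0 r (VS g n)) :
    ρ * ((g n : ℂ) - (r (n + 1) : ℂ) ^ 2) / (r (n + 1) * r n) ∈ K0 r (VS g n) := by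
  have h1 := r_mem r (VS g n) (i := n) (by omega)
  have h2 := r_mem r (VS g n) (i := n + 1) (by omega)
  have h3 := g_VS r g n hn
  exact IntermediateField.div_mem _ (IntermediateField.mul_mem _ h
    (IntermediateField.sub_mem _ h3 (IntermediateField.pow_mem _ h2 2)))
    (IntermediateField.mul_mem _ h2 h1)

theorem slopeM {r g : ℕ → ℝ} {n : ℕ} (hn : n < 5) {ρ : ℂ} (h : ρ ∈ K0 r (VS g n)) :
    r (n + 1) * r n * ρ / ((g n : ℂ) - (r n : ℂ) ^ 2) ∈ K0 r (VS g n) := by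
  have h1 := r_mem r (VS g n) (i := n) (by omega)
  have h2 := r_mem r (VS g n) (i := n + 1) (by omega)
  have h3 := g_VS r g n hn
  exact IntermediateField.div_mem _ (IntermediateField.mul_mem _
    (IntermediateField.mul_mem _ h2 h1) h)
    (IntermediateField.sub_mem _ h3 (IntermediateField.pow_mem _ h1 2))

variable {r g : ℕ → ℝ} (hG : Gen r g)
include hG

theorem g5_notMem : (g 5 : ℂ) ∉ K0 r (VS g 0) :=
  g_notMem hG 5 (by norm_num) (Finset.Icc 0 4) (by intro i hi; simp at hi ⊢; omega) (by simp)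

theorem gn_notMem (n : ℕ) (hn : n < 5) : (g n : ℂ) ∉ K0 r (VS g (n + 1)) :=
  g_notMem hG n (by omega) (Finset.Icc (n + 1) 4) (by intro i hi; simp at hi ⊢; omega) (by simp)

theorem Z1_ne {n : ℕ} {ρ : ℂ} (h : ρ ≠ 0) : -((r n : ℂ) / r (n + 1)) * ρ ≠ 0 :=
  mul_ne_zero (neg_ne_zero.2 (div_ne_zero (hG.rC n) (hG.rC (n + 1)))) h

theorem Z2_ne {n : ℕ} (hn : n < 5) {ρ : ℂ} (h : ρ ≠ 0) :
    ρ * ((g n : ℂ) - (r (n + 1) : ℂ) ^ 2) / (r (n + 1) * r n) ≠ 0 :=
  div_ne_zero (mul_ne_zero h (sq_ne hG n (n + 1) (by omega) (by omega)))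
    (mul_ne_zero (hG.rC (n + 1)) (hG.rC n))

theorem M_ne {n : ℕ} (hn : n < 5) {ρ : ℂ} (h : ρ ≠ 0) :
    r (n + 1) * r n * ρ / ((g n : ℂ) - (r n : ℂ) ^ 2) ≠ 0 :=
  div_ne_zero (mul_ne_zero (mul_ne_zero (hG.rC (n + 1)) (hG.rC n)) h)
    (sq_ne hG n n (by omega) (by omega))

theorem one_div_r5_mem (V : Set ℂ) : ((1 / r 5 : ℝ) : ℂ) ∈ K0 r V := by
  push_cast
  exact one_div_r_mem hG V (by norm_num)

theorem caseI (n : ℕ) (hn : n ≤ 5) :
    (∀ ρ : ℂ, ρ ≠ 0 → ρ ∈ K0 r (VS g n) → ∀ y : ℝ → ℂ,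
      Tendsto (fun δ : ℝ => y δ / (δ : ℂ)) l0 (𝓝 ρ) →
      Ord (fun δ => (E r g n).1 (1 / r 5 + δ) (y δ) 1) (ex 1 0 n).1) ∧
    (∀ ρ : ℂ, ρ ≠ 0 → ρ ∈ K0 r (VS g n) → ∀ y : ℝ → ℂ,
      Tendsto (fun δ : ℝ => (y δ - 1 / (r n : ℂ)) / (δ : ℂ)) l0 (𝓝 ρ) →
      Ord (fun δ => (E r g n).1 (1 / r 5 + δ) (y δ) 1) (ex 1 0 n).2) := by
  have hτ : Tendsto (fun δ : ℝ => 1 / r 5 + δ) l0 (𝓝 (1 / r 5)) := by
    have h1 : Tendsto (fun δ : ℝ => δ) l0 (𝓝 0) := tendsto_id.mono_left nhdsWithin_le_nhds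
    have := h1.const_add (1 / r 5)
    rwa [add_zero] at this
  have hτC : Tendsto (fun δ : ℝ => ((1 / r 5 + δ : ℝ) : ℂ)) l0 (𝓝 (1 / (r 5 : ℂ))) := by
    have h1 := l0_id.const_add (1 / (r 5 : ℂ))
    rw [add_zero] at h1
    refine h1.congr fun δ => ?_
    push_cast; ring
  have h5 := hG.rC 5
  have h0 := hG.rC 0
  induction n with
  | zero =>
    have hm0 := r_mem r (VS g 0) (i := 0) (by omega)
    have hm5 := r_mem r (VS g 0) (i := 5) (by omega)
    constructor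
    · intro ρ hρ hρm y hy
      refine ⟨((g 5 : ℂ) * ρ - r 0 * (r 0 * ρ + r 5)) / r 5, ?_, ?_⟩
      · refine div_ne_zero ?_ h5
        intro h
        apply g5_notMem hG
        have : (g 5 : ℂ) = r 0 * (r 0 * ρ + r 5) / ρ := by
          field_simp; linear_combination h
        rw [this]
        exact IntermediateField.div_mem _ (IntermediateField.mul_mem _ hm0
          (IntermediateField.add_mem _ (IntermediateField.mul_mem _ hm0 hρm) hm5)) hρm
      · have hy0 := div_lim0 hy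
        have h1 := (((hy.const_mul (r 0 : ℂ)).const_add (r 5 : ℂ)).neg.mul
          (((hy0.const_mul (r 5 : ℂ)).add (hτC.const_mul (r 0 : ℂ))).sub (hy0.mul hτC))).add
          ((hy.mul hτC).const_mul (g 5 : ℂ))
        have h2 : -((r 5 : ℂ) + r 0 * ρ) * (r 5 * 0 + r 0 * (1 / (r 5 : ℂ)) - 0 * (1 / (r 5 : ℂ))) +
            (g 5 : ℂ) * (ρ * (1 / (r 5 : ℂ))) =
            ((g 5 : ℂ) * ρ - r 0 * (r 0 * ρ + r 5)) / r 5 := by
          field_simp; ring
        rw [h2] at h1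
        refine h1.congr' ?_
        filter_upwards [l0_ne] with δ hδ
        rw [E_zero]
        unfold q ex
        push_cast
        field_simp
        ring
    · intro ρ hρ hρm y hy
      have hy0 := div_lim hy
      have h1 := E_lim r g 0 hτ hy0
      refine Ord_zero ?_ h1
      rw [E_zero]
      intro h
      apply g5_notMem hG
      refine q_g_mem hm0 hm5 (one_div_r_mem hG _ (by norm_num)) (one_div_r5_mem hG _)
        (one_div_ne_zero h0) ?_ h
      push_cast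
      exact one_div_ne_zero h5
  | succ n ih =>
    have ihn := ih (by omega)
    constructor
    · intro ρ hρ hρm y hy
      have hρm' := VS_mono r g n hρm
      obtain ⟨y1, y2, he, h1, h2, A0, hA0, hA⟩ := stepZ hG n (by omega) hy
      exact comb hA hA0 (ihn.1 _ (Z1_ne hG hρ) (slopeZ1 (by omega) hρm') y1 h1)
        (ihn.2 _ (Z2_ne hG (by omega) hρ) (slopeZ2 (by omega) hρm') y2 h2)
        (he.mono fun δ h => E_step r g n _ _ _ _ h.1 h.2)
    · intro ρ hρ hρm y hy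
      have hρm' := VS_mono r g n hρm
      obtain ⟨y1, y2, he, h1, h2, A0, hA0, hA⟩ := stepM hG n (by omega) hy
      have ho1 := ihn.1 _ (M_ne hG (by omega) hρ) (slopeM (by omega) hρm') y1 h1
      have ho2 : Ord (fun δ => (E r g n).1 (1 / r 5 + δ) (y2 δ) 1) 0 :=
        Ord_zero (EG hG n (by omega) _ (one_div_r5_mem hG _)) (E_lim r g n hτ h2)
      have ho3 := comb hA hA0 ho1 ho2 (f := fun δ => (E r g (n + 1)).1 (1 / r 5 + δ) (y δ) 1)
        (he.mono fun δ h => E_step r g n _ _ _ _ h.1 h.2)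
      have e1 : (ex 1 0 (n + 1)).2 = (ex 1 0 n).1 + 0 := rfl
      rw [e1]
      exact ho3

theorem Psi_caseI : Ord (fun δ => Psi r g (1 / r 5 + δ)) 5 := by
  have h1 := (caseI hG 5 le_rfl).2 1 one_ne_zero (IntermediateField.one_mem _)
    (fun δ => ((1 / r 5 + δ : ℝ) : ℂ)) ?_
  · exact h1
  · have h2 : Tendsto (fun _ : ℝ => (1 : ℂ)) l0 (𝓝 1) := tendsto_const_nhds
    refine h2.congr' ?_
    filter_upwards [l0_ne] with δ hδ
    have h5 := hG.rC 5
    push_cast
    field_simp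
    ring

theorem caseII (n : ℕ) (hn : n ≤ 5) :
    (∀ ρ : ℂ, ρ ∉ K0 r (∅ : Set ℂ) → ρ ∈ K0 r (VS g n) → ∀ y : ℝ → ℂ,
      Tendsto (fun δ : ℝ => y δ / (δ : ℂ)) l0 (𝓝 ρ) →
      Ord (fun δ => (E r g n).1 δ (y δ) 1) (ex 1 1 n).1) ∧
    (∀ ρ : ℂ, ρ ≠ 0 → ρ ∈ K0 r (VS g n) → ∀ y : ℝ → ℂ,
      Tendsto (fun δ : ℝ => (y δ - 1 / (r n : ℂ)) / (δ : ℂ)) l0 (𝓝 ρ) →
      Ord (fun δ => (E r g n).1 δ (y δ) 1) (ex 1 1 n).2) := by
  have hτ : Tendsto (fun δ : ℝ => δ) l0 (𝓝 0) := tendsto_id.mono_left nhdsWithin_le_nhds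
  have h5 := hG.rC 5
  have h0 := hG.rC 0
  induction n with
  | zero =>
    have hm0 := r_mem r (VS g 0) (i := 0) (by omega)
    have hm5 := r_mem r (VS g 0) (i := 5) (by omega)
    constructor
    · intro ρ hρ hρm y hy
      refine ⟨(r 5 : ℂ) * ρ + r 0, ?_, ?_⟩
      · intro h
        apply hρ
        have : ρ = -(r 0 : ℂ) / r 5 := by
          field_simp; linear_combination h
        rw [this]
        exact IntermediateField.div_mem _ (IntermediateField.neg_mem _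
          (r_mem r _ (by norm_num))) (r_mem r _ (by norm_num))
      · have hy0 := div_lim0 hy
        have h1 := ((((hy0.const_mul (r 0 : ℂ)).const_sub 1).sub (l0_id.const_mul (r 5 : ℂ))).mul
          (((hy.const_mul (r 5 : ℂ)).add_const (r 0 : ℂ)).sub hy0)).add
          (hy0.const_mul (g 5 : ℂ))
        have h2 : (1 - (r 0 : ℂ) * 0 - r 5 * 0) * ((r 5 : ℂ) * ρ + r 0 - 0) + (g 5 : ℂ) * 0 =
            (r 5 : ℂ) * ρ + r 0 := by ring
        rw [h2] at h1
        refine h1.congr' ?_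
        filter_upwards [l0_ne] with δ hδ
        rw [E_zero]
        unfold q ex
        field_simp
        ring
    · intro ρ hρ hρm y hy
      have hy0 := div_lim hy
      refine ⟨((g 5 : ℂ) - r 5 * (r 0 * ρ + r 5)) / r 0, ?_, ?_⟩
      · refine div_ne_zero ?_ h0
        intro h
        apply g5_notMem hG
        have : (g 5 : ℂ) = r 5 * (r 0 * ρ + r 5) := by
          linear_combination h
        rw [this]
        exact (IntermediateField.mul_mem _ hm5
          (IntermediateField.add_mem _ (IntermediateField.mul_mem _ hm0 hρm) hm5))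
      · have h1 := (((hy.const_mul (r 0 : ℂ)).add_const (r 5 : ℂ)).neg.mul
          (((hy0.const_mul (r 5 : ℂ)).add (l0_id.const_mul (r 0 : ℂ))).sub (hy0.mul l0_id))).add
          (hy0.const_mul (g 5 : ℂ))
        have h2 : -((r 0 : ℂ) * ρ + r 5) * ((r 5 : ℂ) * (1 / (r 0 : ℂ)) + r 0 * 0 -
            1 / (r 0 : ℂ) * 0) + (g 5 : ℂ) * (1 / (r 0 : ℂ)) =
            ((g 5 : ℂ) - r 5 * (r 0 * ρ + r 5)) / r 0 := by
          field_simp; ring
        rw [h2] at h1
        refine h1.congr' ?_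
        filter_upwards [l0_ne] with δ hδ
        rw [E_zero]
        unfold q ex
        field_simp
        ring
  | succ n ih =>
    have ihn := ih (by omega)
    constructor
    · intro ρ hρ hρm y hy
      have hρm' := VS_mono r g n hρm
      have hρ0 : ρ ≠ 0 := by
        rintro rfl
        exact hρ (IntermediateField.zero_mem _)
      obtain ⟨y1, y2, he, h1, h2, A0, hA0, hA⟩ := stepZ hG n (by omega) hy
      refine comb hA hA0 (ihn.1 _ ?_ (slopeZ1 (by omega) hρm') y1 h1)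
        (ihn.2 _ (Z2_ne hG (by omega) hρ0) (slopeZ2 (by omega) hρm') y2 h2)
        (he.mono fun δ h => E_step r g n _ _ _ _ h.1 h.2)
      intro hmem
      apply hρ
      have hn0 := hG.rC n
      have hn1 := hG.rC (n + 1)
      have : ρ = -((r (n + 1) : ℂ) / r n) * (-((r n : ℂ) / r (n + 1)) * ρ) := by
        field_simp
      rw [this]
      exact IntermediateField.mul_mem _ (IntermediateField.neg_mem _
        (IntermediateField.div_mem _ (r_mem r _ (by omega)) (r_mem r _ (by omega)))) hmem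
    · intro ρ hρ hρm y hy
      have hρm' := VS_mono r g n hρm
      obtain ⟨y1, y2, he, h1, h2, A0, hA0, hA⟩ := stepM hG n (by omega) hy
      have h0' : ((0 : ℝ) : ℂ) ∈ K0 r (∅ : Set ℂ) := by
        rw [Complex.ofReal_zero]; exact IntermediateField.zero_mem _
      have ho2 : Ord (fun δ => (E r g n).1 δ (y2 δ) 1) 0 :=
        Ord_zero (EG hG n (by omega) _ h0') (E_lim r g n hτ h2)
      suffices hns : r (n + 1) * r n * ρ / ((g n : ℂ) - (r n : ℂ) ^ 2) ∉ K0 r (∅ : Set ℂ) by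
        have ho1 := ihn.1 _ hns (slopeM (by omega) hρm') y1 h1
        have ho3 := comb hA hA0 ho1 ho2 (f := fun δ => (E r g (n + 1)).1 δ (y δ) 1)
          (he.mono fun δ h => E_step r g n _ _ _ _ h.1 h.2)
        have e1 : (ex 1 1 (n + 1)).2 = (ex 1 1 n).1 + 0 := rfl
        rw [e1]
        exact ho3
      intro hmem
      have hn0 := hG.rC n
      have hn1 := hG.rC (n + 1)
      have hsq := sq_ne hG n n (by omega) (by omega)
      apply gn_notMem hG n (by omega)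
      have hmem' := K0_mono r (Set.empty_subset (VS g (n + 1))) hmem
      have hMne := M_ne hG (n := n) (by omega) hρ
      have : (g n : ℂ) = r n ^ 2 + r (n + 1) * r n * ρ /
          (r (n + 1) * r n * ρ / ((g n : ℂ) - (r n : ℂ) ^ 2)) := by
        rw [div_div_eq_mul_div, mul_comm, mul_div_assoc, div_self, mul_one]
        · ring
        · exact mul_ne_zero (mul_ne_zero hn1 hn0) hρ
      rw [this]
      have m0 := r_mem r (VS g (n + 1)) (i := n) (by omega)
      have m1 := r_mem r (VS g (n + 1)) (i := n + 1) (by omega)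
      exact IntermediateField.add_mem _ (IntermediateField.pow_mem _ m0 2)
        (IntermediateField.div_mem _ (IntermediateField.mul_mem _
          (IntermediateField.mul_mem _ m1 m0) hρm) hmem')

end Pool.Agent.H858RG
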