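import Pool.Agent.H858RG.Sys

set_option autoImplicit false

namespace Pool.Agent.H858RG

open Finset

/-- the field generated by the `r i` and a set of complex numbers -/
noncomputable def K0 (r : ℕ → ℝ) (V : Set ℂ) : IntermediateField ℚ ℂ :=
  IntermediateField.adjoin ℚ ((fun i => (r i : ℂ)) '' Set.Iio 6 ∪ V)

/-- the genericity assumption -/
structure Gen (r g : ℕ → ℝ) : Prop where
  pos : ∀ i, 0 < r i
  ne1 : ∀ i, i < 6 → r i ≠ 1
  gen : ∀ (V : Finset ℂ) (I : Finset ℕ), I ⊆ range 6 → V.card < I.card →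
    (∀ i ∈ I, (g i : ℂ) ∈ K0 r V) → False

theorem r_mem (r : ℕ → ℝ) (V : Set ℂ) {i : ℕ} (hi : i < 6) : (r i : ℂ) ∈ K0 r V :=
  IntermediateField.subset_adjoin _ _ (Or.inl ⟨i, hi, rfl⟩)

theorem V_mem (r : ℕ → ℝ) (V : Set ℂ) {x : ℂ} (hx : x ∈ V) : x ∈ K0 r V :=
  IntermediateField.subset_adjoin _ _ (Or.inr hx)

theorem K0_mono (r : ℕ → ℝ) {V W : Set ℂ} (h : V ⊆ W) : K0 r V ≤ K0 r W :=
  IntermediateField.adjoin.mono _ _ _ (Set.union_subset_union_right _ h)

theorem K0_insert (r : ℕ → ℝ) {V : Set ℂ} {y : ℂ} (h : y ∈ K0 r V) : K0 r (insert y V) ≤ K0 r V := by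
  unfold K0
  rw [IntermediateField.adjoin_le_iff]
  rintro x (hx | hx)
  · exact IntermediateField.subset_adjoin _ _ (Or.inl hx)
  · rcases hx with rfl | hx
    · exact h
    · exact IntermediateField.subset_adjoin _ _ (Or.inr hx)

theorem q_g {r r' g x y : ℂ} (hx : x ≠ 0) (hy : y ≠ 0) (h : q r r' g x y = 0) :
    g = -((1 - r * x - r' * y) * (r' * x + r * y - x * y)) / (x * y) := by
  unfold q at h
  field_simp
  linear_combination h

theorem q_g_mem {L : IntermediateField ℚ ℂ} {r r' g x y : ℂ} (hr : r ∈ L) (hr' : r' ∈ L)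
    (hxL : x ∈ L) (hyL : y ∈ L) (hx : x ≠ 0) (hy : y ≠ 0) (h : q r r' g x y = 0) : g ∈ L := by
  rw [q_g hx hy h]
  refine L.div_mem (L.neg_mem (L.mul_mem ?_ ?_)) (L.mul_mem hxL hyL)
  · exact L.sub_mem (L.sub_mem L.one_mem (L.mul_mem hr hxL)) (L.mul_mem hr' hyL)
  · exact L.sub_mem (L.add_mem (L.mul_mem hr' hxL) (L.mul_mem hr hyL)) (L.mul_mem hxL hyL)

theorem q_zero_right {r r' g x : ℂ} (h : q r r' g x 0 = 0) (hr' : r' ≠ 0) :
    x = 0 ∨ 1 - r * x = 0 := by
  unfold q at h
  have : x * (1 - r * x) * r' = 0 := by linear_combination h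
  rcases mul_eq_zero.1 this with h | h
  · exact mul_eq_zero.1 h
  · exact absurd h hr'

variable {r g : ℕ → ℝ} (hG : Gen r g)
include hG

theorem Gen.rC (i : ℕ) : (r i : ℂ) ≠ 0 := by exact_mod_cast (hG.pos i).ne'

theorem one_div_r_mem (V : Set ℂ) {i : ℕ} (hi : i < 6) : (1 / (r i : ℂ)) ∈ K0 r V :=
  (K0 r V).div_mem (K0 r V).one_mem (r_mem r V hi)

/-- nonvanishing along free runs -/
theorem EL (n : ℕ) (hn : n ≤ 4) (t : ℝ) (V : Finset ℂ) (I : Finset ℕ) (hI : ∀ i ∈ I, n ≤ i ∧ i ≤ 4)
    (hc : V.card + 1 ≤ I.card) (y : ℂ) (hy : y ≠ 0)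
    (hg : ∀ i ∈ I, (g i : ℂ) ∈ K0 r (insert y (V : Set ℂ))) (ht : (t : ℂ) ∈ K0 r V) :
    (E r g n).1 t y 1 ≠ 0 := by
  classical
  induction n generalizing V I y with
  | zero =>
    intro h0
    have hyV : y ∉ K0 r V := by
      intro hyV
      exact hG.gen V I (fun i hi => by have := hI i hi; simp; omega) (by omega)
        (fun i hi => K0_insert r hyV (hg i hi))
    rw [E_zero] at h0
    by_cases ht0 : (t : ℂ) = 0
    · rw [ht0] at h0
      rcases q_zero_right h0 (hG.rC 5) with h | h
      · exact hy h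
      · apply hyV
        have : y = 1 / (r 0 : ℂ) := by
          have := hG.rC 0
          field_simp
          linear_combination -h
        rw [this]
        exact one_div_r_mem hG _ (by norm_num)
    · refine hG.gen (insert y V) (insert 5 I) ?_ ?_ ?_
      · intro i hi
        rcases mem_insert.1 hi with rfl | hi
        · simp
        · have := hI i hi; simp; omega
      · have h5 : 5 ∉ I := fun h => by have := hI 5 h; omega
        rw [card_insert_of_notMem h5]
        have := card_insert_le y V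
        omega
      · intro i hi
        rw [coe_insert]
        rcases mem_insert.1 hi with rfl | hi
        · exact q_g_mem (r_mem r _ (by norm_num)) (r_mem r _ (by norm_num))
            (V_mem r _ (Set.mem_insert _ _)) (K0_mono r (Set.subset_insert _ _) ht) hy ht0 h0
        · exact hg i hi
  | succ n ih =>
    intro h0
    have hyV : y ∉ K0 r V := by
      intro hyV
      exact hG.gen V I (fun i hi => by have := hI i hi; simp; omega) (by omega)
        (fun i hi => K0_insert r hyV (hg i hi))
    obtain ⟨y', hq, hE⟩ := root_step r g n t y (hG.rC n)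
      (fun h => hyV (h ▸ r_mem r _ (by omega))) h0
    have hy' : y' ≠ 0 := by
      rintro rfl
      rcases q_zero_right hq (hG.rC n) with h | h
      · exact hy h
      · apply hyV
        have : y = 1 / (r (n + 1) : ℂ) := by
          have := hG.rC (n + 1)
          field_simp
          linear_combination -h
        rw [this]
        exact one_div_r_mem hG _ (by omega)
    refine ih (by omega) (insert y V) (insert n I) ?_ ?_ y' hy' ?_ ?_ hE
    · intro i hi
      rcases mem_insert.1 hi with rfl | hi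
      · omega
      · have := hI i hi; omega
    · have h5 : n ∉ I := fun h => by have := hI n h; omega
      rw [card_insert_of_notMem h5]
      have := card_insert_le y V
      omega
    · intro i hi
      rw [coe_insert]
      rcases mem_insert.1 hi with rfl | hi
      · exact q_g_mem (r_mem r _ (by omega)) (r_mem r _ (by omega))
          (V_mem r _ (Set.mem_insert_of_mem _ (Set.mem_insert _ _)))
          (V_mem r _ (Set.mem_insert _ _)) hy hy' hq
      · exact K0_mono r (Set.subset_insert _ _) (hg i hi)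
    · rw [coe_insert]
      exact K0_mono r (Set.subset_insert _ _) ht

/-- `g n` is not in the field generated by the `r i` and the other `g i` -/
theorem g_notMem (n : ℕ) (hn : n < 6) (J : Finset ℕ) (hJ : J ⊆ range 6) (hnJ : n ∉ J) :
    (g n : ℂ) ∉ K0 r ((fun i => (g i : ℂ)) '' J) := by
  classical
  intro h
  refine hG.gen (J.image (fun i => (g i : ℂ))) (insert n J) ?_ ?_ ?_
  · intro i hi
    rcases mem_insert.1 hi with rfl | hi
    · simpa using hn
    · exact hJ hi
  · rw [card_insert_of_notMem hnJ]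
    have := card_image_le (s := J) (f := fun i => (g i : ℂ))
    omega
  · intro i hi
    rw [coe_image]
    rcases mem_insert.1 hi with rfl | hi
    · exact h
    · exact V_mem r _ ⟨i, hi, rfl⟩

theorem g_notMem_empty (n : ℕ) (hn : n < 6) : (g n : ℂ) ∉ K0 r (∅ : Set ℂ) := by
  have := g_notMem hG n hn ∅ (by simp) (by simp)
  simpa using this

theorem sq_ne (n i : ℕ) (hn : n < 6) (hi : i < 6) : (g n : ℂ) - (r i : ℂ) ^ 2 ≠ 0 := by
  intro h
  apply g_notMem_empty hG n hn
  rw [sub_eq_zero.1 h]
  exact (K0 r _).pow_mem (r_mem r _ hi) 2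

/-- the third node of the run starting at a pinned node -/
noncomputable def GG (r g : ℕ → ℝ) (n : ℕ) : ℝ := (g n - r n ^ 2) / (r n * (r (n + 1) ^ 2 - 1))

theorem r_sq_ne (n : ℕ) (hn : n < 6) : r n ^ 2 - 1 ≠ 0 := by
  have h1 := hG.pos n
  have h2 := hG.ne1 n hn
  intro h
  have : (r n - 1) * (r n + 1) = 0 := by linear_combination h
  rcases mul_eq_zero.1 this with h | h
  · exact h2 (by linarith)
  · linarith

theorem GG_ne (n : ℕ) (hn : n < 5) : (GG r g n : ℂ) ≠ 0 := by
  have h1 := sq_ne hG n n (by omega) (by omega)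
  have h2 := r_sq_ne hG (n + 1) (by omega)
  have h3 := (hG.pos n).ne'
  have h4 : g n - r n ^ 2 ≠ 0 := by
    intro h; apply h1; exact_mod_cast h
  unfold GG
  exact_mod_cast div_ne_zero h4 (mul_ne_zero h3 h2)

theorem GG_q (n : ℕ) (hn : n < 5) :
    (g n : ℂ) = r n ^ 2 + GG r g n * (r n * (r (n + 1) ^ 2 - 1)) := by
  have h2 := r_sq_ne hG (n + 1) (by omega)
  have h3 := (hG.pos n).ne'
  have : g n = r n ^ 2 + GG r g n * (r n * (r (n + 1) ^ 2 - 1)) := by
    unfold GG
    field_simp
    try ring
  exact_mod_cast this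

theorem g_mem_GG (n : ℕ) (hn : n < 5) (V : Set ℂ) (h : (GG r g n : ℂ) ∈ V) : (g n : ℂ) ∈ K0 r V := by
  rw [GG_q hG n hn]
  have h1 := r_mem r V (i := n) (by omega)
  have h2 := r_mem r V (i := n + 1) (by omega)
  exact (K0 r V).add_mem ((K0 r V).pow_mem h1 2) ((K0 r V).mul_mem (V_mem r V h)
    ((K0 r V).mul_mem h1 ((K0 r V).sub_mem ((K0 r V).pow_mem h2 2) (K0 r V).one_mem)))

/-- nonvanishing at `GG` when the target is special -/
theorem EG (n : ℕ) (hn : n ≤ 4) (t : ℝ) (ht : (t : ℂ) ∈ K0 r (∅ : Set ℂ)) :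
    (E r g n).1 t (GG r g n) 1 ≠ 0 := by
  refine EL hG n hn t ∅ {n} (by simpa using hn) (by simp) _ (GG_ne hG n (by omega)) ?_ (by simpa using ht)
  intro i hi
  rw [mem_singleton] at hi
  subst hi
  exact g_mem_GG hG _ (by omega) _ (Set.mem_insert _ _)

/-- nonvanishing at zero and at pinned nodes -/
theorem ZL (n : ℕ) (hn : n ≤ 4) (t : ℝ) (ht0 : t ≠ 0) (ht5 : t ≠ 1 / r 5) (V : Finset ℂ)
    (I : Finset ℕ) (hI : ∀ i ∈ I, n ≤ i ∧ i ≤ 4) (hc : V.card ≤ I.card)
    (hg : ∀ i ∈ I, (g i : ℂ) ∈ K0 r (V : Set ℂ)) (ht : (t : ℂ) ∈ K0 r V) :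
    (E r g n).1 t 0 1 ≠ 0 ∧ (E r g n).1 t (1 / (r n : ℂ)) 1 ≠ 0 := by
  classical
  have ht0' : (t : ℂ) ≠ 0 := by exact_mod_cast ht0
  induction n generalizing I with
  | zero =>
    rw [E_zero, E_zero]
    constructor
    · rw [q_symm]
      intro h
      rcases q_zero_right h (hG.rC 0) with h | h
      · exact ht0' h
      · apply ht5
        have h1 : (1 : ℝ) - r 5 * t = 0 := by exact_mod_cast h
        have h2 := hG.pos 5
        field_simp
        linarith
    · intro h
      refine hG.gen V (insert 5 I) ?_ ?_ ?_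
      · intro i hi
        rcases mem_insert.1 hi with rfl | hi
        · simp
        · have := hI i hi; simp; omega
      · have h5 : 5 ∉ I := fun h => by have := hI 5 h; omega
        rw [card_insert_of_notMem h5]
        omega
      · intro i hi
        rcases mem_insert.1 hi with rfl | hi
        · refine q_g_mem (r_mem r _ (by norm_num)) (r_mem r _ (by norm_num)) 
            (one_div_r_mem hG _ (by norm_num)) ht ?_ ht0' h
          exact one_div_ne_zero (hG.rC 0)
        · exact hg i hi
  | succ n ih =>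
    have ihn := ih (by omega) I (fun i hi => by have := hI i hi; omega) hc hg
    have hrn := hG.rC n
    have hrn1 := hG.rC (n + 1)
    constructor
    · -- node value `0`: roots `0` and `1 / r n`
      rw [E_succ r g n t 0 1 0 1 (-(r (n + 1) : ℂ)) (-((r n : ℂ) * r (n + 1)))
        (by unfold qA; ring) (by unfold qB; ring) (by unfold qC; ring)]
      refine mul_ne_zero ihn.1 ?_
      have h2 : (E r g n).1 t (-(r (n + 1) : ℂ)) (-((r n : ℂ) * r (n + 1))) =
          (-((r n : ℂ) * r (n + 1))) ^ (2 ^ (n + 1)) * (E r g n).1 t (1 / (r n : ℂ)) 1 := by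
        rw [← E_smul]
        congr 1
        · field_simp
        try ring
      rw [h2]
      exact mul_ne_zero (pow_ne_zero _ (neg_ne_zero.2 (mul_ne_zero hrn hrn1))) ihn.2
    · -- pinned node: roots `0` and `GG`
      have h3 := r_sq_ne hG (n + 1) (by omega)
      have h3' : (r (n + 1) : ℂ) ^ 2 - 1 ≠ 0 := by exact_mod_cast h3
      have hw : (r n : ℂ) * (1 / (r (n + 1) : ℂ) - r (n + 1)) ≠ 0 := by
        refine mul_ne_zero hrn ?_
        intro h
        apply h3'
        field_simp at h
        linear_combination -h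
      rw [E_succ r g n t (1 / (r (n + 1) : ℂ)) 1 0 1
        ((r n : ℂ) * (1 / (r (n + 1) : ℂ) - r (n + 1)) * GG r g n)
        ((r n : ℂ) * (1 / (r (n + 1) : ℂ) - r (n + 1)))
        (by unfold qA; ring) ?_ (by unfold qC; field_simp; try ring)]
      · refine mul_ne_zero ihn.1 ?_
        have h2 : (E r g n).1 t ((r n : ℂ) * (1 / (r (n + 1) : ℂ) - r (n + 1)) * GG r g n)
            ((r n : ℂ) * (1 / (r (n + 1) : ℂ) - r (n + 1))) =
            ((r n : ℂ) * (1 / (r (n + 1) : ℂ) - r (n + 1))) ^ (2 ^ (n + 1)) *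
              (E r g n).1 t (GG r g n) 1 := by
          rw [← E_smul, mul_one]
        rw [h2]
        refine mul_ne_zero (pow_ne_zero _ hw) ?_
        refine EL hG n (by omega) t V (insert n I) ?_ ?_ _ (GG_ne hG n (by omega)) ?_ ht
        · intro i hi
          rcases mem_insert.1 hi with rfl | hi
          · omega
          · have := hI i hi; omega
        · have h5 : n ∉ I := fun h => by have := hI n h; omega
          rw [card_insert_of_notMem h5]
          omega
        · intro i hi
          rcases mem_insert.1 hi with rfl | hi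
          · exact g_mem_GG hG _ (by omega) _ (Set.mem_insert _ _)
          · exact K0_mono r (Set.subset_insert _ _) (hg i hi)
      · unfold qB
        rw [GG_q hG n (by omega)]
        field_simp
        ring

end Pool.Agent.H858RG
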