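import Pool.Agent.H858RG.Exist

set_option autoImplicit false
set_option linter.unusedSectionVars false

namespace Pool.Agent.H858RG

open Finset

variable {r g : ℕ → ℝ} (hG : Gen r g)
include hG

theorem not_pinned (m : ℕ) (hm : m ≤ 4) (t : ℝ) (x : ℕ → ℂ) (hx5 : x 5 = t)
    (hx : ∀ i, m ≤ i → i ≤ 5 → x i ≠ 0)
    (hrel : ∀ i, m ≤ i → i ≤ 4 → q (r (i + 1) : ℂ) (r i) (g i) (x (i + 1)) (x i) = 0)
    (ht0 : t ≠ 0) (ht5 : t ≠ r 5) (ht5' : t ≠ 1 / r 5) (hE : (E r g m).1 t (x m) 1 = 0) :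
    x m ≠ r m ∧ x m ≠ 1 / r m := by
  classical
  obtain ⟨V, hV⟩ : ∃ V : Finset ℂ, V = (Finset.Icc (m + 1) 5).image x := ⟨_, rfl⟩
  have hcard : V.card ≤ (Finset.Icc m 4).card := by
    rw [hV]
    refine (card_image_le).trans ?_
    rw [Nat.card_Icc, Nat.card_Icc]
    omega
  have hVm : ∀ i, m + 1 ≤ i → i ≤ 5 → x i ∈ K0 r (V : Set ℂ) := by
    intro i h1 h2
    apply V_mem
    rw [hV, coe_image]
    exact ⟨i, by simp; omega, rfl⟩
  have hgm : x m ∈ K0 r (V : Set ℂ) → ∀ i ∈ Finset.Icc m 4, (g i : ℂ) ∈ K0 r (V : Set ℂ) := by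
    intro hxm i hi
    rw [Finset.mem_Icc] at hi
    have hxi : x i ∈ K0 r (V : Set ℂ) := by
      rcases Nat.eq_or_lt_of_le hi.1 with h | h
      · rw [← h]; exact hxm
      · exact hVm i h (by omega)
    exact q_g_mem (r_mem r _ (by omega)) (r_mem r _ (by omega)) (hVm (i + 1) (by omega) (by omega))
      hxi (hx _ (by omega) (by omega)) (hx _ (by omega) (by omega)) (hrel i hi.1 hi.2)
  have htm : (t : ℂ) ∈ K0 r (V : Set ℂ) := by
    rw [← hx5]; exact hVm 5 (by omega) le_rfl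
  constructor
  · intro h
    have hxm : x m ∈ K0 r (V : Set ℂ) := by rw [h]; exact r_mem r _ (by omega)
    have ht' : ((1 / t : ℝ) : ℂ) ∈ K0 r (V : Set ℂ) := by
      push_cast
      exact IntermediateField.div_mem _ (IntermediateField.one_mem _) htm
    have h1 := (ZL hG m hm (1 / t) (one_div_ne_zero ht0) (by
      intro h2
      apply ht5
      have h5 := (hG.pos 5).ne'
      field_simp at h2
      exact h2.symm) V (Finset.Icc m 4) (fun i hi => by simpa using hi) hcard (hgm hxm) ht').2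
    rw [h, ← E_pal r g m t ht0] at hE
    have ht0' : (t : ℂ) ≠ 0 := by exact_mod_cast ht0
    have h3 := (mul_eq_zero.1 hE).resolve_right (pow_ne_zero _ ht0')
    have hrm := hG.rC m
    have h4 := E_smul r g m (1 / t) (r m : ℂ) (1 / (r m : ℂ)) 1
    rw [mul_one, mul_one_div_cancel hrm] at h4
    rw [h3] at h4
    exact (mul_ne_zero (pow_ne_zero _ hrm) h1) h4.symm
  · intro h
    have hxm : x m ∈ K0 r (V : Set ℂ) := by rw [h]; exact one_div_r_mem hG _ (by omega)
    have h1 := (ZL hG m hm t ht0 ht5' V (Finset.Icc m 4) (fun i hi => by simpa using hi) hcard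
      (hgm hxm) htm).2
    rw [h] at hE
    exact h1 hE

theorem exists_chain_aux (t : ℝ) (ht0 : t ≠ 0) (ht5 : t ≠ r 5) (ht5' : t ≠ 1 / r 5)
    (hP : Psi r g t = 0) (k : ℕ) (hk : k ≤ 5) :
    ∃ x : ℕ → ℂ, x 5 = t ∧ (∀ i, 5 - k ≤ i → i ≤ 5 → x i ≠ 0) ∧
    (∀ i, 5 - k ≤ i → i ≤ 4 → q (r (i + 1) : ℂ) (r i) (g i) (x (i + 1)) (x i) = 0) ∧
    (E r g (5 - k)).1 t (x (5 - k)) 1 = 0 := by
  have ht0' : (t : ℂ) ≠ 0 := by exact_mod_cast ht0
  induction k with
  | zero =>
    refine ⟨fun _ => t, rfl, fun _ _ _ => ht0', fun i h1 h2 => by omega, ?_⟩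
    exact hP
  | succ k ih =>
    obtain ⟨x, hx5, hx, hrel, hE⟩ := ih (by omega)
    obtain ⟨n, hn⟩ : ∃ n, n = 5 - (k + 1) := ⟨_, rfl⟩
    have hn1 : 5 - k = n + 1 := by omega
    rw [hn1] at hx hrel hE
    rw [← hn]
    have hpin : x (n + 1) ≠ r (n + 1) ∧ x (n + 1) ≠ 1 / r (n + 1) := by
      by_cases h4 : n + 1 ≤ 4
      · exact not_pinned hG (n + 1) h4 t x hx5 hx hrel ht0 ht5 ht5' hE
      · have h5 : n + 1 = 5 := by omega
        rw [h5, hx5]
        constructor
        · exact_mod_cast ht5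
        · intro h; apply ht5'; exact_mod_cast h
    obtain ⟨y', hq, hE'⟩ := root_step r g n t (x (n + 1)) (hG.rC n) hpin.1 hE
    have hy' : y' ≠ 0 := by
      rintro rfl
      rcases q_zero_right hq (hG.rC n) with h | h
      · exact hx (n + 1) le_rfl (by omega) h
      · apply hpin.2
        have := hG.rC (n + 1)
        field_simp
        linear_combination -h
    refine ⟨Function.update x n y', ?_, ?_, ?_, ?_⟩
    · rw [Function.update_of_ne (by omega)]; exact hx5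
    · intro i h1 h2
      by_cases hi : i = n
      · rw [hi, Function.update_self]; exact hy'
      · rw [Function.update_of_ne hi]; exact hx i (by omega) h2
    · intro i h1 h2
      by_cases hi : i = n
      · rw [hi, Function.update_self, Function.update_of_ne (by omega)]; exact hq
      · rw [Function.update_of_ne hi, Function.update_of_ne (by omega)]
        exact hrel i (by omega) h2
    · rw [Function.update_self]; exact hE'

/-- a realisation of the cycle in which the last node is real -/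
theorem exists_chain : ∃ (t : ℝ) (x : ℕ → ℂ), x 5 = t ∧ t ≠ 0 ∧ t ≠ 1 ∧ t ≠ -1 ∧
    (∀ i, i ≤ 5 → x i ≠ 0) ∧
    (∀ i, i ≤ 4 → q (r (i + 1) : ℂ) (r i) (g i) (x (i + 1)) (x i) = 0) ∧
    q (r 0 : ℂ) (r 5) (g 5) (x 0) (x 5) = 0 := by
  obtain ⟨t, h0, h1, h2, h3, h4, hP⟩ := exists_zero hG
  obtain ⟨x, hx5, hx, hrel, hE⟩ := exists_chain_aux hG t h0 h3 h4 hP 5 le_rfl
  refine ⟨t, x, hx5, h0, h1, h2, fun i hi => hx i (by omega) hi,
    fun i hi => hrel i (by omega) hi, ?_⟩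
  have e0 : 5 - 5 = 0 := rfl
  rw [e0, E_zero] at hE
  rw [hx5]
  exact hE

end Pool.Agent.H858RG
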