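import Pool.Agent.H789R3.Asm

set_option autoImplicit false
set_option linter.style.haveILetI false
set_option linter.unusedSectionVars false

/-! Algebraic independence of the squared edge lengths of a Laman graph; the proof is the first
part of `Pool.Agent.H789R3.main_lower`. -/

namespace Pool.Agent.H858RG

open Finset Pool.Agent.H789R3

variable {V : Type} [Fintype V] [DecidableEq V] (o w : V)

theorem edge_indep (E : Finset (Sym2 V)) (how : s(o, w) ∈ E) (hdiag : ∀ e ∈ E, ¬ e.IsDiag)
    (hcard : E.card + 3 = 2 * Fintype.card V)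
    (hE : ∀ S : Finset V, 2 ≤ S.card →
      (E.filter (fun e => ∀ v ∈ e, v ∈ S)).card + 3 ≤ 2 * S.card)
    (p : V → Fin 2 → ℂ)
    (hp : Function.Injective (MvPolynomial.aeval (R := ℚ) (fun x : V × Fin 2 => p x.1 x.2))) :
    ∃ c : E → ℚ, AlgebraicIndependent ℚ (fun e : E => dC p e.1 - (c e : ℂ)) := by
  classical
  have hne : o ≠ w := by
    rintro rfl
    exact hdiag _ how rfl
  obtain ⟨x, hx, hN⟩ := exists_special o w hne E hdiag hcard hE
  have hcardJ : Fintype.card (JJ o w) = Fintype.card E := by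
    rw [Fintype.card_sum, card_ne2 o w hne, card_ne, Fintype.card_coe]
    have : 1 < Fintype.card V := Fintype.one_lt_card_iff.2 ⟨o, w, hne⟩
    omega
  let ρ : JJ o w ≃ E := Fintype.equivOfCardEq hcardJ
  let q0 : JJ o w → MvPolynomial (JJ o w) ℚ := fun j => inS o w x (ρ j).1
  let h0 : JJ o w → MvPolynomial (JJ o w) ℚ := fun j => hS o w x (ρ j).1
  have hq : ∀ e, ∀ m ∈ (q0 e).support, Finsupp.weight (wt o w) m = 2 := by
    intro e m hm
    have h1 : MvPolynomial.IsWeightedHomogeneous (wt o w) (q0 e) 2 := by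
      simp only [q0]
      generalize (ρ e).1 = e'
      induction e' using Sym2.ind with
      | _ u v => exact inP_wh o w x u v
    exact h1 (MvPolynomial.mem_support_iff.1 hm)
  have hh : ∀ e, h0 e - q0 e ∈ FF (wt o w) ℚ 3 := by
    intro e
    simp only [h0, q0]
    generalize (ρ e).1 = e'
    induction e' using Sym2.ind with
    | _ u v =>
      change hP o w x u v - inP o w x u v ∈ _
      rw [hP, add_sub_cancel_left]
      have h1 := FF_mul (wt o w) (wh_FF (wh_sub (Yp_wh o w u) (Yp_wh o w v)))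
        (wh_FF (wh_sub (Xp_wh o w u) (Xp_wh o w v)))
      exact h1
  have hX : ∀ j, ∃ N, (MvPolynomial.X j : MvPolynomial (JJ o w) ℚ) ^ N ∈
      Ideal.span (Set.range q0) := by
    intro j
    obtain ⟨N, hN'⟩ := hN j
    refine ⟨N, ?_⟩
    have h1 : Set.range q0 = Set.range (fun e : E => inS o w x e.1) :=
      ρ.surjective.range_comp (fun e : E => inS o w x e.1)
    rw [h1]
    exact hN'
  have hinjB := aeval_injective (wt o w) (wt_cases o w) q0 h0 hq hh hX
  let lam : MvPolynomial (JJ o w) ℚ →+* ℂ :=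
    (MvPolynomial.aeval (R := ℚ) (fun j : JJ o w => dC p (ρ j).1 - (xsq x (ρ j).1 : ℂ))).toRingHom
  have hlamX : ∀ j, lam (MvPolynomial.X j) = dC p (ρ j).1 - (xsq x (ρ j).1 : ℂ) := by
    intro j
    change MvPolynomial.aeval _ (MvPolynomial.X j) = _
    rw [MvPolynomial.aeval_X]
  have hlam : Function.Injective lam := by
    rw [injective_iff_map_eq_zero]
    intro Ψ hΨ
    let g : JJ o w → MvPolynomial (V × Fin 2) ℚ := fun j =>
      dpS (ρ j).1 - MvPolynomial.C (xsq x (ρ j).1)
    have hg : ∀ (q : V → Fin 2 → ℂ) (j : JJ o w),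
        MvPolynomial.aeval (R := ℚ) (fun x : V × Fin 2 => q x.1 x.2) (g j) =
        dC q (ρ j).1 - (xsq x (ρ j).1 : ℂ) := by
      intro q j
      simp only [g]
      rw [map_sub, aeval_dpS, MvPolynomial.aeval_C]
      rfl
    have hg2 : ∀ (q : V → Fin 2 → ℂ), MvPolynomial.aeval (R := ℚ) (fun x : V × Fin 2 => q x.1 x.2)
        (MvPolynomial.aeval g Ψ) =
        MvPolynomial.aeval (fun j : JJ o w => dC q (ρ j).1 - (xsq x (ρ j).1 : ℂ)) Ψ := by
      intro q
      have h1 : (fun j : JJ o w => dC q (ρ j).1 - (xsq x (ρ j).1 : ℂ)) =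
        fun j => MvPolynomial.aeval (R := ℚ) (fun x : V × Fin 2 => q x.1 x.2) (g j) := by
        funext j
        rw [hg]
      rw [h1, ← MvPolynomial.comp_aeval_apply]
    have h2 : MvPolynomial.aeval g Ψ = 0 := by
      apply hp
      rw [hg2, map_zero]
      exact hΨ
    apply hinjB
    rw [map_zero]
    apply MvPolynomial.funext
    intro r
    rw [map_zero]
    let β : MvPolynomial (JJ o w) ℚ →+* ℂ := (algebraMap ℚ ℂ).comp (MvPolynomial.eval r)
    obtain ⟨q, hq'⟩ := realise o w x β
    have h3 := hg2 q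
    rw [h2, map_zero] at h3
    have h4 : (fun j : JJ o w => dC q (ρ j).1 - (xsq x (ρ j).1 : ℂ)) = fun j => β (h0 j) := by
      funext j
      exact (FP_hS o w x β q (fun u v => (hq' u v).symm) (ρ j).1).symm
    rw [h4] at h3
    have h5 : β (MvPolynomial.aeval h0 Ψ) = MvPolynomial.aeval (fun j => β (h0 j)) Ψ := by
      have h6 : (β.comp (MvPolynomial.aeval h0 : MvPolynomial (JJ o w) ℚ →ₐ[ℚ] _).toRingHom) =
          (MvPolynomial.aeval (R := ℚ) (fun j => β (h0 j))).toRingHom := by
        apply hom_ext'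
        intro j
        change β (MvPolynomial.aeval h0 (MvPolynomial.X j)) =
          MvPolynomial.aeval (R := ℚ) (fun j => β (h0 j)) (MvPolynomial.X j)
        rw [MvPolynomial.aeval_X, MvPolynomial.aeval_X]
      exact RingHom.congr_fun h6 Ψ
    rw [← h3] at h5
    exact (algebraMap ℚ ℂ).injective (h5.trans (map_zero _).symm)
  have h1 : AlgebraicIndependent ℚ (fun j : JJ o w => dC p (ρ j).1 - (xsq x (ρ j).1 : ℂ)) := hlam
  refine ⟨fun e => xsq x e.1, ?_⟩
  have h2 : (fun j : JJ o w => dC p (ρ j).1 - (xsq x (ρ j).1 : ℂ)) =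
      (fun e : E => dC p e.1 - ((xsq x e.1 : ℚ) : ℂ)) ∘ ρ := rfl
  rw [h2] at h1
  exact (algebraicIndependent_equiv ρ).1 h1

/-- a set of algebraically independent numbers in the field generated by `W` has at most `|W|`
elements -/
theorem alg_of_mem {L : Type} [Field L] [Algebra ℚ L] (W : Set L) {x : L}
    (hx : x ∈ IntermediateField.adjoin ℚ W) : IsAlgebraic (Algebra.adjoin ℚ W) x := by
  induction hx using IntermediateField.adjoin_induction with
  | mem x hx => exact isAlgebraic_algebraMap (⟨x, Algebra.subset_adjoin hx⟩ : Algebra.adjoin ℚ W)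
  | algebraMap q =>
    have : algebraMap ℚ L q = algebraMap (Algebra.adjoin ℚ W) L (algebraMap ℚ _ q) := rfl
    rw [this]
    exact isAlgebraic_algebraMap _
  | add x y _ _ hx hy => exact hx.add hy
  | inv x _ hx => exact hx.inv
  | mul x y _ _ hx hy => exact hx.mul hy

theorem card_le_of_indep {L : Type} [Field L] [Algebra ℚ L] (W : Finset L) {κ : Type} [Fintype κ]
    (x : κ → L) (hx : AlgebraicIndependent ℚ x)
    (h : ∀ k, x k ∈ IntermediateField.adjoin ℚ (W : Set L)) : Fintype.card κ ≤ W.card := by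
  have hind : (AlgebraicIndependent.matroid ℚ L).Indep (Set.range x) := by
    rw [AlgebraicIndependent.matroid_indep_iff]
    exact AlgebraicIndependent.to_subtype_range hx
  have h1 : Set.range x ⊆ (AlgebraicIndependent.matroid ℚ L).closure (W : Set L) := by
    rw [AlgebraicIndependent.matroid_closure_eq]
    rintro _ ⟨k, rfl⟩
    exact alg_of_mem _ (h k)
  have h2 := (AlgebraicIndependent.matroid ℚ L).eRk_mono h1
  rw [Matroid.eRk_closure_eq, hind.eRk_eq_encard] at h2
  have h3 := h2.trans ((AlgebraicIndependent.matroid ℚ L).eRk_le_encard (W : Set L))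
  rw [Set.encard_coe_eq_coe_finsetCard] at h3
  have h4 : (Set.range x).encard = (Fintype.card κ : ℕ∞) := by
    rw [← Set.image_univ, hx.injective.encard_image, Set.encard_univ, ENat.card_eq_coe_fintype_card]
  rw [h4] at h3
  exact_mod_cast h3

end Pool.Agent.H858RG
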