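import Pool.Agent.H858RG.Rig
import Pool.Agent.H858RG.Indep
import Pool.Agent.H858RG.Cycle

set_option autoImplicit false

namespace Pool.Agent.H858RG

open Finset Pool.Agent.H789R3

/-- squared distances -/
def ds (p : Fin 8 → Fin 2 → ℝ) (i j : Fin 8) : ℝ := (p i 0 - p j 0) ^ 2 + (p i 1 - p j 1) ^ 2

theorem ds_comm (p : Fin 8 → Fin 2 → ℝ) (i j : Fin 8) : ds p i j = ds p j i := by
  unfold ds; ring

/-- the hub of a node -/
def hb : ℕ → Fin 8
  | 0 => 7 | 1 => 6 | 2 => 7 | 3 => 6 | 4 => 7 | _ => 6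

def nd : ℕ → Fin 8
  | 0 => 0 | 1 => 1 | 2 => 2 | 3 => 3 | 4 => 4 | _ => 5

def nx : ℕ → Fin 8
  | 0 => 1 | 1 => 2 | 2 => 3 | 3 => 4 | 4 => 5 | _ => 0

noncomputable def rr (p : Fin 8 → Fin 2 → ℝ) (i : ℕ) : ℝ :=
  if i < 6 then Real.sqrt (ds p (nd i) (hb i) / ds p 6 7) else 1

noncomputable def gg (p : Fin 8 → Fin 2 → ℝ) (i : ℕ) : ℝ := ds p (nd i) (nx i) / ds p 6 7

theorem nd_ne_hb (i : ℕ) : nd i ≠ hb i := by
  rcases i with _ | _ | _ | _ | _ | i <;> simp [nd, hb]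

variable (p : Fin 8 → Fin 2 → ℝ)
  (hp : AlgebraicIndependent ℚ (fun x : Fin 8 × Fin 2 => p x.1 x.2))
include hp

theorem ds_pos {i j : Fin 8} (hij : i ≠ j) : 0 < ds p i j := by
  have h1 := dist_ne p hp hij
  have h2 : 0 ≤ ds p i j := by unfold ds; positivity
  exact lt_of_le_of_ne h2 (Ne.symm h1)

theorem rr_sq {i : ℕ} (hi : i < 6) : ds p 6 7 * rr p i ^ 2 = ds p (nd i) (hb i) := by
  have h1 := ds_pos p hp (i := 6) (j := 7) (by decide)
  have h2 := ds_pos p hp (nd_ne_hb i)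
  unfold rr
  rw [if_pos hi, Real.sq_sqrt (by positivity)]
  field_simp

theorem rr_pos (i : ℕ) : 0 < rr p i := by
  have h1 := ds_pos p hp (i := 6) (j := 7) (by decide)
  have h2 := ds_pos p hp (nd_ne_hb i)
  unfold rr
  split_ifs
  · exact Real.sqrt_pos.2 (by positivity)
  · exact one_pos

theorem gg_mul (i : ℕ) : ds p 6 7 * gg p i = ds p (nd i) (nx i) := by
  have h1 := ds_pos p hp (i := 6) (j := 7) (by decide)
  unfold gg
  field_simp

theorem hpinj : Function.Injective (MvPolynomial.aeval (R := ℚ)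
    (fun x : Fin 8 × Fin 2 => ((p x.1 x.2 : ℝ) : ℂ))) := by
  rw [injective_iff_map_eq_zero]
  intro P hP
  have h1 : MvPolynomial.aeval (R := ℚ) (fun x : Fin 8 × Fin 2 => ((p x.1 x.2 : ℝ) : ℂ)) P =
      ((MvPolynomial.aeval (R := ℚ) (fun x : Fin 8 × Fin 2 => p x.1 x.2) P : ℝ) : ℂ) := by
    have h2 := MvPolynomial.comp_aeval_apply (R := ℚ) (f := fun x : Fin 8 × Fin 2 => p x.1 x.2)
      ((Complex.ofRealAm).restrictScalars ℚ) P
    exact h2.symm
  rw [h1] at hP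
  have h3 : (MvPolynomial.aeval (R := ℚ) (fun x : Fin 8 × Fin 2 => p x.1 x.2) P : ℝ) = 0 := by
    exact_mod_cast hP
  have h4 := hp
  rw [AlgebraicIndependent] at h4
  exact h4 (h3.trans (map_zero _).symm)

omit hp in
theorem dC_ds (a b : Fin 8) : dC (fun v i => ((p v i : ℝ) : ℂ)) s(a, b) = (ds p a b : ℂ) := by
  change ∑ i, (((p a i : ℝ) : ℂ) - ((p b i : ℝ) : ℂ)) ^ 2 = _
  rw [Fin.sum_univ_two]
  unfold ds
  push_cast
  rfl

theorem count (W : Finset ℂ)
    (hD : (ds p 6 7 : ℂ) ∈ IntermediateField.adjoin ℚ (W : Set ℂ))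
    (hr : ∀ i, i < 6 → (rr p i : ℂ) ∈ IntermediateField.adjoin ℚ (W : Set ℂ))
    (hg : ∀ i, i < 6 → (gg p i : ℂ) ∈ IntermediateField.adjoin ℚ (W : Set ℂ)) : 13 ≤ W.card := by
  classical
  obtain ⟨c, hc⟩ := edge_indep (6 : Fin 8) 7 EE (by decide +kernel) EE_diag
    (by rw [EE_card, Fintype.card_fin]) (by
      intro S hS
      have := EE_laman S hS
      convert this) (fun v i => ((p v i : ℝ) : ℂ)) (hpinj p hp)
  have h1 := card_le_of_indep W _ hc ?_
  · rw [Fintype.card_coe, EE_card] at h1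
    exact h1
  obtain ⟨L, hL⟩ : ∃ L, L = IntermediateField.adjoin ℚ (W : Set ℂ) := ⟨_, rfl⟩
  rw [← hL] at hD hr hg ⊢
  have hR : ∀ i, i < 6 → (ds p (nd i) (hb i) : ℂ) ∈ L := by
    intro i hi
    rw [← rr_sq p hp hi]
    push_cast
    exact IntermediateField.mul_mem _ hD (pow_mem (hr i hi) 2)
  have hGG : ∀ i, i < 6 → (ds p (nd i) (nx i) : ℂ) ∈ L := by
    intro i hi
    rw [← gg_mul p hp i]
    push_cast
    exact IntermediateField.mul_mem _ hD (hg i hi)
  have hall : ∀ e ∈ EE, dC (fun v i => ((p v i : ℝ) : ℂ)) e ∈ L := by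
    unfold EE
    simp only [Finset.forall_mem_insert, Finset.mem_singleton, forall_eq, dC_ds]
    exact ⟨hD, hGG 0 (by norm_num), hGG 1 (by norm_num), hGG 2 (by norm_num), hGG 3 (by norm_num),
      hGG 4 (by norm_num), hGG 5 (by norm_num), hR 1 (by norm_num), hR 3 (by norm_num),
      hR 5 (by norm_num), hR 0 (by norm_num), hR 2 (by norm_num), hR 4 (by norm_num)⟩
  rintro ⟨e, he⟩
  refine IntermediateField.sub_mem _ (hall e he) ?_
  have : ((c ⟨e, he⟩ : ℚ) : ℂ) = algebraMap ℚ ℂ (c ⟨e, he⟩) := rfl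
  rw [this]
  exact IntermediateField.algebraMap_mem _ _

theorem gen_of : Gen (rr p) (gg p) := by
  classical
  refine ⟨rr_pos p hp, ?_, ?_⟩
  · intro i hi h1
    have h2 := count p hp ({(ds p 6 7 : ℂ)} ∪ ((range 6).erase i).image (fun j => (rr p j : ℂ)) ∪
      (range 6).image (fun j => (gg p j : ℂ))) ?_ ?_ ?_
    · have c1 : (((range 6).erase i).image (fun j => (rr p j : ℂ))).card ≤ 5 := by
        refine card_image_le.trans ?_
        rw [card_erase_of_mem (by simpa using hi)]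
        simp
      have c2 : ((range 6).image (fun j => (gg p j : ℂ))).card ≤ 6 :=
        card_image_le.trans (by simp)
      have c3 := card_union_le ({(ds p 6 7 : ℂ)} ∪ ((range 6).erase i).image
        (fun j => (rr p j : ℂ))) ((range 6).image (fun j => (gg p j : ℂ)))
      have c4 := card_union_le ({(ds p 6 7 : ℂ)} : Finset ℂ) (((range 6).erase i).image
        (fun j => (rr p j : ℂ)))
      rw [card_singleton] at c4
      omega
    · apply IntermediateField.subset_adjoin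
      simp
    · intro j hj
      by_cases hji : j = i
      · rw [hji, h1, Complex.ofReal_one]
        exact IntermediateField.one_mem _
      · apply IntermediateField.subset_adjoin
        rw [mem_coe, mem_union, mem_union]
        left; right
        exact mem_image.2 ⟨j, by simp [hji, hj], rfl⟩
    · intro j hj
      apply IntermediateField.subset_adjoin
      rw [mem_coe, mem_union]
      right
      exact mem_image.2 ⟨j, by simpa using hj, rfl⟩
  · intro V I hI hVI hg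
    have h2 := count p hp ({(ds p 6 7 : ℂ)} ∪ (range 6).image (fun j => (rr p j : ℂ)) ∪
      (V ∪ (range 6 \ I).image (fun j => (gg p j : ℂ)))) ?_ ?_ ?_
    · have c1 : ((range 6).image (fun j => (rr p j : ℂ))).card ≤ 6 :=
        card_image_le.trans (by simp)
      have c2 : ((range 6 \ I).image (fun j => (gg p j : ℂ))).card ≤ 6 - I.card := by
        refine card_image_le.trans ?_
        rw [card_sdiff_of_subset hI, card_range]
      have c3 := card_union_le ({(ds p 6 7 : ℂ)} ∪ (range 6).image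
        (fun j => (rr p j : ℂ))) (V ∪ (range 6 \ I).image (fun j => (gg p j : ℂ)))
      have c4 := card_union_le ({(ds p 6 7 : ℂ)} : Finset ℂ) ((range 6).image
        (fun j => (rr p j : ℂ)))
      have c5 := card_union_le V ((range 6 \ I).image (fun j => (gg p j : ℂ)))
      have c6 := card_le_card hI
      rw [card_range] at c6
      rw [card_singleton] at c4
      omega
    · apply IntermediateField.subset_adjoin
      simp
    · intro j hj
      apply IntermediateField.subset_adjoin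
      rw [mem_coe, mem_union, mem_union]
      left; right
      exact mem_image.2 ⟨j, by simp [hj], rfl⟩
    · intro j hj
      by_cases hji : j ∈ I
      · refine IntermediateField.adjoin.mono _ _ _ ?_ (hg j hji)
        rintro x (⟨i, hi, rfl⟩ | hx)
        · rw [mem_coe, mem_union, mem_union]
          left; right
          exact mem_image.2 ⟨i, by simpa using hi, rfl⟩
        · exact mem_coe.2 (mem_union_right _ (mem_union_left _ hx))
      · apply IntermediateField.subset_adjoin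
        exact mem_coe.2 (mem_union_right _ (mem_union_right _
          (mem_image.2 ⟨j, by simp [hji, hj], rfl⟩)))

omit hp in
theorem edge_val {D r r' g x y : ℂ} (hx : x ≠ 0) (hy : y ≠ 0) (h : q r r' g x y = 0) :
    (1 - r * x - r' * y) * (D - D * r / x - D * r' / y) = D * g := by
  unfold q at h
  field_simp
  linear_combination (-D) * h

omit hp in
theorem coord (a b a' b' : ℂ) :
    ((a + b) / 2 - (a' + b') / 2) ^ 2 + ((a - b) / (2 * Complex.I) - (a' - b') / (2 * Complex.I)) ^ 2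
      = (a - a') * (b - b') := by
  have hI : Complex.I ^ 2 = -1 := Complex.I_sq
  have hI0 : Complex.I ≠ 0 := Complex.I_ne_zero
  have h1 : ((a - b) / (2 * Complex.I) - (a' - b') / (2 * Complex.I)) ^ 2 =
      -((a - b - (a' - b')) ^ 2 / 4) := by
    rw [← sub_div, div_pow, mul_pow, hI]
    ring
  rw [h1]
  ring

theorem exists_conf : ∃ (Q : Fin 8 → Fin 2 → ℂ) (t : ℝ), t ≠ 0 ∧ t ≠ 1 ∧ t ≠ -1 ∧
    (∀ e ∈ EE, dC Q e = dC (fun v i => ((p v i : ℝ) : ℂ)) e) ∧
    ∑ k, (Q 5 k - Q 7 k) ^ 2 =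
      ((ds p 6 7 * (1 - rr p 5 * t) * (1 - rr p 5 / t) : ℝ) : ℂ) := by
  obtain ⟨t, x, hx5, h0, h1, h2, hx, hrel, hlast⟩ := exists_chain (gen_of p hp)
  obtain ⟨D, hD⟩ : ∃ D : ℂ, D = (ds p 6 7 : ℂ) := ⟨_, rfl⟩
  obtain ⟨r, hr⟩ : ∃ r : ℕ → ℂ, r = fun i => (rr p i : ℂ) := ⟨_, rfl⟩
  obtain ⟨g, hg⟩ : ∃ g : ℕ → ℂ, g = fun i => (gg p i : ℂ) := ⟨_, rfl⟩
  have hrel' : ∀ i, i ≤ 4 → q (r (i + 1)) (r i) (g i) (x (i + 1)) (x i) = 0 := by
    rw [hr, hg]; exact hrel
  have hlast' : q (r 0) (r 5) (g 5) (x 0) (x 5) = 0 := by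
    rw [hr, hg]; exact hlast
  have hR : ∀ i, i < 6 → D * r i ^ 2 = (ds p (nd i) (hb i) : ℂ) := by
    intro i hi
    rw [← rr_sq p hp hi, hD, hr]
    push_cast
    rfl
  have hGG : ∀ i, i < 6 → D * g i = (ds p (nd i) (nx i) : ℂ) := by
    intro i hi
    rw [← gg_mul p hp i, hD, hg]
    push_cast
    rfl
  obtain ⟨a, ha⟩ : ∃ a : Fin 8 → ℂ, a = ![1 - r 0 * x 0, r 1 * x 1, 1 - r 2 * x 2, r 3 * x 3,
    1 - r 4 * x 4, r 5 * x 5, 0, 1] := ⟨_, rfl⟩
  obtain ⟨b, hb'⟩ : ∃ b : Fin 8 → ℂ, b = ![D - D * r 0 / x 0, D * r 1 / x 1, D - D * r 2 / x 2,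
    D * r 3 / x 3, D - D * r 4 / x 4, D * r 5 / x 5, 0, D] := ⟨_, rfl⟩
  have a0 : a 0 = 1 - r 0 * x 0 := by rw [ha]; rfl
  have a1 : a 1 = r 1 * x 1 := by rw [ha]; rfl
  have a2 : a 2 = 1 - r 2 * x 2 := by rw [ha]; rfl
  have a3 : a 3 = r 3 * x 3 := by rw [ha]; rfl
  have a4 : a 4 = 1 - r 4 * x 4 := by rw [ha]; rfl
  have a5 : a 5 = r 5 * x 5 := by rw [ha]; rfl
  have a6 : a 6 = 0 := by rw [ha]; rfl
  have a7 : a 7 = 1 := by rw [ha]; rfl
  have b0 : b 0 = D - D * r 0 / x 0 := by rw [hb']; rfl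
  have b1 : b 1 = D * r 1 / x 1 := by rw [hb']; rfl
  have b2 : b 2 = D - D * r 2 / x 2 := by rw [hb']; rfl
  have b3 : b 3 = D * r 3 / x 3 := by rw [hb']; rfl
  have b4 : b 4 = D - D * r 4 / x 4 := by rw [hb']; rfl
  have b5 : b 5 = D * r 5 / x 5 := by rw [hb']; rfl
  have b6 : b 6 = 0 := by rw [hb']; rfl
  have b7 : b 7 = D := by rw [hb']; rfl
  have x0 := hx 0 (by norm_num)
  have x1 := hx 1 (by norm_num)
  have x2 := hx 2 (by norm_num)
  have x3 := hx 3 (by norm_num)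
  have x4 := hx 4 (by norm_num)
  have x5 := hx 5 (by norm_num)
  have hQ : ∀ u v : Fin 8, dC (fun v => ![(a v + b v) / 2, (a v - b v) / (2 * Complex.I)]) s(u, v) =
      (a u - a v) * (b u - b v) := by
    intro u v
    change ∑ i, ((![(a u + b u) / 2, (a u - b u) / (2 * Complex.I)] : Fin 2 → ℂ) i -
      (![(a v + b v) / 2, (a v - b v) / (2 * Complex.I)] : Fin 2 → ℂ) i) ^ 2 = _
    rw [Fin.sum_univ_two]
    exact coord _ _ _ _
  refine ⟨fun v => ![(a v + b v) / 2, (a v - b v) / (2 * Complex.I)], t, h0, h1, h2, ?_, ?_⟩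
  · unfold EE
    simp only [Finset.forall_mem_insert, Finset.mem_singleton, forall_eq, dC_ds, hQ]
    have g0 := hGG 0 (by norm_num)
    have g1 := hGG 1 (by norm_num)
    have g2 := hGG 2 (by norm_num)
    have g3 := hGG 3 (by norm_num)
    have g4 := hGG 4 (by norm_num)
    have g5 := hGG 5 (by norm_num)
    have r0 := hR 0 (by norm_num)
    have r1 := hR 1 (by norm_num)
    have r2 := hR 2 (by norm_num)
    have r3 := hR 3 (by norm_num)
    have r4 := hR 4 (by norm_num)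
    have r5 := hR 5 (by norm_num)
    simp only [nd, hb, nx] at g0 g1 g2 g3 g4 g5 r0 r1 r2 r3 r4 r5
    refine ⟨?_, ?_, ?_, ?_, ?_, ?_, ?_, ?_, ?_, ?_, ?_, ?_, ?_⟩
    · rw [a6, a7, b6, b7, hD]; ring
    · rw [← g0, ← edge_val (D := D) x1 x0 (hrel' 0 (by norm_num)), a0, a1, b0, b1]; ring
    · rw [← g1, ← edge_val (D := D) x2 x1 (hrel' 1 (by norm_num)), a1, a2, b1, b2]; ring
    · rw [← g2, ← edge_val (D := D) x3 x2 (hrel' 2 (by norm_num)), a2, a3, b2, b3]; ring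
    · rw [← g3, ← edge_val (D := D) x4 x3 (hrel' 3 (by norm_num)), a3, a4, b3, b4]; ring
    · rw [← g4, ← edge_val (D := D) x5 x4 (hrel' 4 (by norm_num)), a4, a5, b4, b5]; ring
    · rw [← g5, ← edge_val (D := D) x0 x5 hlast', a0, a5, b0, b5]; ring
    · rw [← r1, a1, a6, b1, b6]; field_simp; try ring
    · rw [← r3, a3, a6, b3, b6]; field_simp; try ring
    · rw [← r5, a5, a6, b5, b6]; field_simp; try ring
    · rw [← r0, a0, a7, b0, b7]; field_simp; try ring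
    · rw [← r2, a2, a7, b2, b7]; field_simp; try ring
    · rw [← r4, a4, a7, b4, b7]; field_simp; try ring
  · have := hQ 5 7
    change ∑ k, ((![(a 5 + b 5) / 2, (a 5 - b 5) / (2 * Complex.I)] : Fin 2 → ℂ) k -
      (![(a 7 + b 7) / 2, (a 7 - b 7) / (2 * Complex.I)] : Fin 2 → ℂ) k) ^ 2 = _ at this
    rw [this, a5, a7, b5, b7, hx5, hr, hD]
    push_cast
    ring

omit hp in
theorem nonreal (q' : Fin 8 → Fin 2 → ℝ) {D r t : ℝ} (hD : 0 < D) (hr : 0 < r) (ht0 : t ≠ 0)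
    (ht1 : t ≠ 1) (ht2 : t ≠ -1) (h1 : ds q' 6 7 = D) (h2 : ds q' 5 6 = D * r ^ 2)
    (h3 : ds q' 5 7 = D * (1 - r * t) * (1 - r / t)) : False := by
  unfold ds at h1 h2 h3
  obtain ⟨u0, hu0⟩ : ∃ u0, u0 = q' 7 0 - q' 6 0 := ⟨_, rfl⟩
  obtain ⟨u1, hu1⟩ : ∃ u1, u1 = q' 7 1 - q' 6 1 := ⟨_, rfl⟩
  obtain ⟨v0, hv0⟩ : ∃ v0, v0 = q' 5 0 - q' 6 0 := ⟨_, rfl⟩
  obtain ⟨v1, hv1⟩ : ∃ v1, v1 = q' 5 1 - q' 6 1 := ⟨_, rfl⟩
  have e1 : u0 ^ 2 + u1 ^ 2 = D := by rw [hu0, hu1]; linear_combination h1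
  have e2 : v0 ^ 2 + v1 ^ 2 = D * r ^ 2 := by rw [hv0, hv1]; linear_combination h2
  have e3 : t * ((v0 - u0) ^ 2 + (v1 - u1) ^ 2) = D * (1 - r * t) * (t - r) := by
    have : (v0 - u0) ^ 2 + (v1 - u1) ^ 2 = D * (1 - r * t) * (1 - r / t) := by
      rw [hu0, hu1, hv0, hv1]; linear_combination h3
    rw [this]
    field_simp
  have e4 : 2 * t * (u0 * v0 + u1 * v1) = D * r * (t ^ 2 + 1) := by
    linear_combination t * e1 + t * e2 - e3
  have e5 : (u0 * v0 + u1 * v1) ^ 2 + (u0 * v1 - u1 * v0) ^ 2 = D * (D * r ^ 2) := by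
    linear_combination (v0 ^ 2 + v1 ^ 2) * e1 + D * e2
  have e6 : D ^ 2 * r ^ 2 * (t ^ 2 - 1) ^ 2 + 4 * t ^ 2 * (u0 * v1 - u1 * v0) ^ 2 = 0 := by
    linear_combination (4 * t ^ 2) * e5 - (2 * t * (u0 * v0 + u1 * v1) + D * r * (t ^ 2 + 1)) * e4
  have e7 : 0 < D ^ 2 * r ^ 2 * (t ^ 2 - 1) ^ 2 := by
    have : t ^ 2 - 1 ≠ 0 := by
      intro h
      have : (t - 1) * (t + 1) = 0 := by linear_combination h
      rcases mul_eq_zero.1 this with h | h
      · exact ht1 (by linarith)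
      · exact ht2 (by linarith)
    positivity
  have e8 : 0 ≤ 4 * t ^ 2 * (u0 * v1 - u1 * v0) ^ 2 := by positivity
  linarith

end Pool.Agent.H858RG
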