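import Pool.Agent.H858RG.Special

set_option autoImplicit false
set_option linter.unusedSectionVars false

namespace Pool.Agent.H858RG

open Finset Filter Topology

theorem pos_r {a b : ℝ} (h : 0 < a * b) (ha : 0 < a) : 0 < b := (mul_pos_iff_of_pos_left ha).1 h

theorem neg_r {a b : ℝ} (h : 0 < a * b) (ha : a < 0) : b < 0 := by
  rcases mul_pos_iff.1 h with h | h
  · linarith [h.1]
  · exact h.2

theorem same_sign {f : ℝ → ℝ} (hf : Continuous f) {a b : ℝ} (hab : a ≤ b)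
    (h : ∀ x ∈ Set.Icc a b, f x ≠ 0) : 0 < f a * f b := by
  have ha := h a ⟨le_rfl, hab⟩
  have hb := h b ⟨hab, le_rfl⟩
  by_contra hcon
  rw [not_lt] at hcon
  have h0 : (0 : ℝ) ∈ f '' Set.Icc a b := by
    rcases lt_or_gt_of_ne ha with ha' | ha'
    · have hb' : 0 ≤ f b := by
        by_contra hb'
        rw [not_le] at hb'
        have := mul_pos_of_neg_of_neg ha' hb'
        linarith
      exact intermediate_value_Icc hab hf.continuousOn ⟨ha'.le, hb'⟩
    · have hb' : f b ≤ 0 := by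
        by_contra hb'
        rw [not_le] at hb'
        have := mul_pos ha' hb'
        linarith
      exact intermediate_value_Icc' hab hf.continuousOn ⟨hb', ha'.le⟩
  obtain ⟨x, hx, hx0⟩ := h0
  exact h x hx hx0

theorem ord_real {f : ℝ → ℝ} {F : ℝ → ℂ} {k : ℕ} (hF : ∀ δ, F δ = (f δ : ℂ)) (h : Ord F k) :
    ∃ L : ℝ, L ≠ 0 ∧ Tendsto (fun δ => f δ / δ ^ k) l0 (𝓝 L) := by
  obtain ⟨L, hL, h⟩ := h
  have h1 : Tendsto (fun δ : ℝ => (F δ / (δ : ℂ) ^ k).re) l0 (𝓝 L.re) :=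
    (Complex.continuous_re.tendsto _).comp h
  have h2 : Tendsto (fun δ : ℝ => (F δ / (δ : ℂ) ^ k).im) l0 (𝓝 L.im) :=
    (Complex.continuous_im.tendsto _).comp h
  have h3 : ∀ δ : ℝ, F δ / (δ : ℂ) ^ k = ((f δ / δ ^ k : ℝ) : ℂ) := by
    intro δ; rw [hF]; push_cast; rfl
  have h4 : L.im = 0 := by
    have h5 : (fun δ : ℝ => (F δ / (δ : ℂ) ^ k).im) = fun _ => 0 := by
      funext δ; rw [h3, Complex.ofReal_im]
    rw [h5] at h2
    exact (tendsto_nhds_unique h2 tendsto_const_nhds)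
  refine ⟨L.re, ?_, ?_⟩
  · intro h5
    exact hL (Complex.ext h5 h4)
  · refine h1.congr fun δ => ?_
    rw [h3, Complex.ofReal_re]

theorem ord_sign {f : ℝ → ℝ} {L : ℝ} {k : ℕ} (hL : L ≠ 0)
    (h : Tendsto (fun δ => f δ / δ ^ k) l0 (𝓝 L)) {ε : ℝ} (hε : 0 < ε) :
    ∃ δ, 0 < δ ∧ δ < ε ∧ 0 < f δ * L ∧ 0 < f (-δ) * L * (-1) ^ k := by
  have h1 := h.mul_const L
  have h2 : ∀ᶠ δ in l0, 0 < f δ / δ ^ k * L :=
    h1.eventually (lt_mem_nhds (mul_self_pos.2 hL))
  rw [eventually_nhdsWithin_iff, Metric.eventually_nhds_iff] at h2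
  obtain ⟨η, hη, h3⟩ := h2
  have hm : 0 < min η ε := lt_min hη hε
  have h4 : 0 < min η ε / 2 := by linarith
  have h5 : min η ε / 2 < η := by have := min_le_left η ε; linarith
  have h6 : min η ε / 2 < ε := by have := min_le_right η ε; linarith
  set δ := min η ε / 2 with hδ
  have hp : 0 < δ ^ k := pow_pos h4 k
  refine ⟨δ, h4, h6, ?_, ?_⟩
  · have h7 := h3 (y := δ) (by rw [Real.dist_eq, sub_zero, abs_of_pos h4]; exact h5)
      (by simpa using h4.ne')
    have h8 : f δ * L = f δ / δ ^ k * L * δ ^ k := by field_simp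
    rw [h8]
    exact mul_pos h7 hp
  · have h7 := h3 (y := -δ) (by rw [Real.dist_eq, sub_zero, abs_neg, abs_of_pos h4]; exact h5)
      (by simpa using h4.ne')
    have h9 : ((-1 : ℝ)) ^ k * (-1) ^ k = 1 := by
      rw [← mul_pow]; norm_num
    have h10 : ((-1 : ℝ)) ^ k ≠ 0 := pow_ne_zero _ (by norm_num)
    have h8 : f (-δ) * L * (-1) ^ k = f (-δ) / (-δ) ^ k * L * δ ^ k := by
      have h11 : ((-1 : ℝ) ^ k)⁻¹ = (-1) ^ k := inv_eq_of_mul_eq_one_left h9
      have h12 : f (-δ) / ((-1) ^ k * δ ^ k) * L * δ ^ k = f (-δ) * L * ((-1 : ℝ) ^ k)⁻¹ := by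
        field_simp
      rw [neg_pow δ k, h12, h11]
    rw [h8]
    exact mul_pos h7 hp

variable {r g : ℕ → ℝ}

theorem Psi_real (t : ℝ) : Psi r g t = (((Psi r g t).re : ℝ) : ℂ) := by
  have h1 : (starRingEnd ℂ) (Psi r g t) = Psi r g t := by
    unfold Psi
    rw [E_conj, Complex.conj_ofReal, map_one]
  exact (Complex.conj_eq_iff_re.1 h1).symm

theorem ev_cont' {N : ℕ} (F : Frm N) : Continuous (fun t : ℝ => F.ev t (t : ℂ) 1) := by
  have h1 : Continuous (fun t : ℝ => ((t, (t : ℂ), (1 : ℂ)) : ℝ × ℂ × ℂ)) :=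
    continuous_id.prodMk (Complex.continuous_ofReal.prodMk continuous_const)
  exact F.ev_cont.comp h1

theorem Psi_cont : Continuous (fun t => (Psi r g t).re) := by
  have h1 : (fun t => Psi r g t) = fun t : ℝ => (Classical.choose (E r g 5).2).ev t (t : ℂ) 1 := by
    funext t
    unfold Psi
    rw [E_ev]
  have h2 : Continuous (fun t => Psi r g t) := by
    rw [h1]; exact ev_cont' _
  exact Complex.continuous_re.comp h2

variable (hG : Gen r g)
include hG

theorem Psi_ne (e : ℝ) (he : e * e = 1) : Psi r g e ≠ 0 := by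
  intro h0
  have he1 : e = 1 ∨ e = -1 := by
    have : (e - 1) * (e + 1) = 0 := by linear_combination he
    rcases mul_eq_zero.1 this with h | h
    · left; linarith
    · right; linarith
  have h5 := hG.pos 5
  have h51 := hG.ne1 5 (by norm_num)
  have he5 : e ≠ r 5 := by
    rcases he1 with h | h
    · rw [h]; exact h51.symm
    · rw [h]; intro h'; linarith
  have he0 : e ≠ 0 := by rintro rfl; norm_num at he
  have he6 : 1 - r 5 * e ≠ 0 := by
    rcases he1 with h | h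
    · rw [h, mul_one]; intro h'; exact h51 (by linarith)
    · rw [h]; intro h'; linarith
  have heC : (e : ℂ) ≠ 0 := by exact_mod_cast he0
  have hem : ∀ V : Set ℂ, (e : ℂ) ∈ K0 r V := by
    intro V
    rcases he1 with h | h
    · rw [h, Complex.ofReal_one]; exact IntermediateField.one_mem _
    · rw [h, Complex.ofReal_neg, Complex.ofReal_one]
      exact IntermediateField.neg_mem _ (IntermediateField.one_mem _)
  obtain ⟨y', hq, hE⟩ := root_step r g 4 e e (hG.rC 4) (by exact_mod_cast he5) h0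
  have hy' : y' ≠ 0 := by
    rintro rfl
    rcases q_zero_right hq (hG.rC 4) with h | h
    · exact heC h
    · apply he6
      exact_mod_cast h
  refine EL hG 4 le_rfl e ∅ {4} (by simp) (by simp) y' hy' ?_ (hem _) hE
  intro i hi
  rw [mem_singleton] at hi
  subst hi
  exact q_g_mem (r_mem r _ (by norm_num)) (r_mem r _ (by norm_num)) (hem _)
    (V_mem r _ (Set.mem_insert _ _)) heC hy' hq

theorem Psi_pos (e : ℝ) (he : e * e = 1) : 0 < (Psi r g e).re := by
  have h5 := hG.pos 5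
  have h51 := hG.ne1 5 (by norm_num)
  have he5 : e ≠ r 5 := by
    rintro rfl
    have : (r 5 - 1) * (r 5 + 1) = 0 := by linear_combination he
    rcases mul_eq_zero.1 this with h | h
    · exact h51 (by linarith)
    · linarith
  obtain ⟨z, hz⟩ := Psi_sq r g e he (hG.pos 4).ne' he5
  have h1 := Psi_ne hG e he
  rw [hz] at h1 ⊢
  rw [Complex.ofReal_re]
  have h2 : z ^ 2 ≠ 0 := by exact_mod_cast h1
  exact lt_of_le_of_ne (sq_nonneg z) (Ne.symm h2)

theorem pair5 {ε : ℝ} (hε : 0 < ε) : ∃ δ, 0 < δ ∧ δ < ε ∧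
    (Psi r g (1 / r 5 + δ)).re * (Psi r g (1 / r 5 - δ)).re < 0 := by
  obtain ⟨L, hL, h⟩ := ord_real (f := fun δ => (Psi r g (1 / r 5 + δ)).re)
    (fun δ => Psi_real _) (Psi_caseI hG)
  obtain ⟨δ, h1, h2, h3, h4⟩ := ord_sign hL h hε
  refine ⟨δ, h1, h2, ?_⟩
  rw [← sub_eq_add_neg] at h4
  have h5 : (-1 : ℝ) ^ 5 = -1 := by norm_num
  rw [h5] at h4
  have h6 := mul_pos h3 h4
  by_contra hcon
  rw [not_lt] at hcon
  have h7 : 0 ≤ (Psi r g (1 / r 5 + δ)).re * (Psi r g (1 / r 5 - δ)).re * (L * L) :=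
    mul_nonneg hcon (mul_self_nonneg L)
  nlinarith

theorem pair14 {ε : ℝ} (hε : 0 < ε) : ∃ δ, 0 < δ ∧ δ < ε ∧
    0 < (Psi r g δ).re * (Psi r g (-δ)).re := by
  obtain ⟨L, hL, h⟩ := ord_real (f := fun δ => (Psi r g δ).re)
    (fun δ => Psi_real _) (Psi_caseII hG)
  obtain ⟨δ, h1, h2, h3, h4⟩ := ord_sign hL h hε
  refine ⟨δ, h1, h2, ?_⟩
  have h5 : (-1 : ℝ) ^ 14 = 1 := by norm_num
  rw [h5, mul_one] at h4
  have h6 := mul_pos h3 h4
  by_contra hcon
  rw [not_lt] at hcon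
  have h7 : 0 ≤ -((Psi r g δ).re * (Psi r g (-δ)).re) * (L * L) :=
    mul_nonneg (by linarith) (mul_self_nonneg L)
  nlinarith

theorem exists_zero : ∃ t : ℝ, t ≠ 0 ∧ t ≠ 1 ∧ t ≠ -1 ∧ t ≠ r 5 ∧ t ≠ 1 / r 5 ∧
    Psi r g t = 0 := by
  by_contra hcon
  have hP1 := Psi_pos hG 1 (by norm_num)
  have hPm := Psi_pos hG (-1) (by norm_num)
  have hz : ∀ t : ℝ, t ≠ 0 → t ≠ r 5 → t ≠ 1 / r 5 → (Psi r g t).re ≠ 0 := by
    intro t h0 h5 h5'
    by_cases h1 : t = 1
    · rw [h1]; exact hP1.ne'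
    by_cases h2 : t = -1
    · rw [h2]; exact hPm.ne'
    intro h3
    apply hcon
    refine ⟨t, h0, h1, h2, h5, h5', ?_⟩
    rw [Psi_real t, h3, Complex.ofReal_zero]
  have hc : Continuous (fun t => (Psi r g t).re) := Psi_cont
  obtain ⟨f, hf⟩ : ∃ f : ℝ → ℝ, f = fun t => (Psi r g t).re := ⟨_, rfl⟩
  have hfd : ∀ t, (Psi r g t).re = f t := fun t => by rw [hf]
  rw [← hf] at hc
  rw [hfd] at hP1 hPm
  simp only [hfd] at hz
  have h5 := hG.pos 5
  have h51 := hG.ne1 5 (by norm_num)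
  have hcpos : 0 < 1 / r 5 := by positivity
  have hcr : 1 / r 5 * r 5 = 1 := by field_simp
  obtain ⟨c, hcd⟩ : ∃ c, c = 1 / r 5 := ⟨_, rfl⟩
  rcases lt_or_gt_of_ne h51 with hr | hr
  · -- `r 5 < 1`
    have hc1 : 1 < 1 / r 5 := by rw [lt_div_iff₀ h5]; linarith
    obtain ⟨δ, hδ0, hδ1, hδ2⟩ := pair5 hG (ε := 1 / r 5 - 1) (by linarith)
    rw [hfd, hfd] at hδ2
    have ha : 0 < f 1 * f (1 / r 5 - δ) := by
      refine same_sign hc (by linarith) ?_
      rintro x ⟨hx1, hx2⟩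
      exact hz x (by linarith) (by linarith) (by linarith)
    have ha' : 0 < f (1 / r 5 - δ) := pos_r ha hP1
    have hb : f (1 / r 5 + δ) < 0 := by
      by_contra hn
      rw [not_lt] at hn
      have := mul_nonneg hn ha'.le
      linarith
    have hpos : 0 < 1 / r 5 + δ := by linarith
    have hpal := Psi_pal r g (1 / r 5 + δ) hpos.ne'
    have hpal' : f (1 / (1 / r 5 + δ)) * (1 / r 5 + δ) ^ 128 = f (1 / r 5 + δ) := by
      rw [Psi_real (1 / (1 / r 5 + δ)), Psi_real (1 / r 5 + δ), hfd, hfd] at hpal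
      exact_mod_cast hpal
    have hu : f (1 / (1 / r 5 + δ)) < 0 := by
      by_contra hn
      rw [not_lt] at hn
      have := mul_nonneg hn (pow_pos hpos 128).le
      linarith
    have hu0 : 0 < 1 / (1 / r 5 + δ) := by positivity
    have hu5 : 1 / (1 / r 5 + δ) < r 5 := by
      rw [div_lt_iff₀ hpos]
      have := mul_pos h5 hδ0
      nlinarith
    obtain ⟨s, hs0, hs1, hs2⟩ := pair14 hG hu0
    rw [hfd, hfd] at hs2
    have hsu : 0 < f s * f (1 / (1 / r 5 + δ)) := by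
      refine same_sign hc hs1.le ?_
      rintro x ⟨hx1, hx2⟩
      exact hz x (by linarith) (by linarith) (by linarith)
    have hs : f s < 0 := neg_r (by rw [mul_comm]; exact hsu) hu
    have hms : f (-s) < 0 := neg_r hs2 hs
    have hm : 0 < f (-1) * f (-s) := by
      refine same_sign hc (by linarith) ?_
      rintro x ⟨hx1, hx2⟩
      exact hz x (by linarith) (by linarith) (by linarith)
    have := pos_r hm hPm
    linarith
  · -- `1 < r 5`
    have hc1 : 1 / r 5 < 1 := by rw [div_lt_iff₀ h5]; linarith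
    obtain ⟨s, hs0, hs1, hs2⟩ := pair14 hG hcpos
    rw [hfd, hfd] at hs2
    obtain ⟨δ, hδ0, hδ1, hδ2⟩ := pair5 hG (ε := min (1 / r 5 - s) (1 - 1 / r 5))
      (lt_min (by linarith) (by linarith))
    rw [hfd, hfd] at hδ2
    have hδs : δ < 1 / r 5 - s := lt_of_lt_of_le hδ1 (min_le_left _ _)
    have hδt : δ < 1 - 1 / r 5 := lt_of_lt_of_le hδ1 (min_le_right _ _)
    have hm : 0 < f (-1) * f (-s) := by
      refine same_sign hc (by linarith) ?_
      rintro x ⟨hx1, hx2⟩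
      exact hz x (by linarith) (by linarith) (by linarith)
    have hms : 0 < f (-s) := pos_r hm hPm
    have hs : 0 < f s := pos_r (by rw [mul_comm]; exact hs2) hms
    have h1 : 0 < f s * f (1 / r 5 - δ) := by
      refine same_sign hc (by linarith) ?_
      rintro x ⟨hx1, hx2⟩
      exact hz x (by linarith) (by linarith) (by linarith)
    have h1' : 0 < f (1 / r 5 - δ) := pos_r h1 hs
    have h2 : 0 < f (1 / r 5 + δ) * f 1 := by
      refine same_sign hc (by linarith) ?_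
      rintro x ⟨hx1, hx2⟩
      exact hz x (by linarith) (by linarith) (by linarith)
    have h2' : 0 < f (1 / r 5 + δ) := pos_r (by rw [mul_comm]; exact h2) hP1
    have := mul_pos h2' h1'
    linarith

end Pool.Agent.H858RG
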