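import Mathlib

set_option autoImplicit false

/-!
# Binary forms with coefficients depending continuously on a parameter, and resultants with a
binary quadratic form
-/

namespace Pool.Agent.H858RG

open Finset

/-- A form of degree `N` with real coefficients which depend continuously on a real parameter. -/
structure Frm (N : ℕ) where
  co : ℕ → ℝ → ℝ
  cont : ∀ k, Continuous (co k)

/-- the value of a form -/
noncomputable def Frm.ev {N : ℕ} (F : Frm N) (t : ℝ) (a b : ℂ) : ℂ :=
  ∑ k ∈ range (N + 1), (F.co k t : ℂ) * a ^ k * b ^ (N - k)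

theorem Frm.ev_smul {N : ℕ} (F : Frm N) (t : ℝ) (c a b : ℂ) :
    F.ev t (c * a) (c * b) = c ^ N * F.ev t a b := by
  unfold Frm.ev
  rw [mul_sum]
  refine sum_congr rfl fun k hk => ?_
  have hk' : k ≤ N := by simpa [Nat.lt_succ_iff] using hk
  have : c ^ N = c ^ k * c ^ (N - k) := by rw [← pow_add]; congr 1; omega
  rw [mul_pow, mul_pow, this]; ring

theorem Frm.ev_conj {N : ℕ} (F : Frm N) (t : ℝ) (a b : ℂ) :
    (starRingEnd ℂ) (F.ev t a b) = F.ev t ((starRingEnd ℂ) a) ((starRingEnd ℂ) b) := by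
  unfold Frm.ev
  rw [map_sum]
  refine sum_congr rfl fun k _ => ?_
  simp

/-- joint continuity -/
theorem Frm.ev_cont {N : ℕ} (F : Frm N) :
    Continuous (fun x : ℝ × ℂ × ℂ => F.ev x.1 x.2.1 x.2.2) := by
  unfold Frm.ev
  refine continuous_finsetSum _ fun k _ => ?_
  have := (F.cont k)
  exact ((Complex.continuous_ofReal.comp (this.comp continuous_fst)).mul
    ((continuous_fst.comp continuous_snd).pow k)).mul ((continuous_snd.comp continuous_snd).pow _)

/-- being given by a form -/
def IsF (N : ℕ) (G : ℝ → ℂ → ℂ → ℂ) : Prop := ∃ F : Frm N, ∀ t a b, G t a b = F.ev t a b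

theorem IsF.add {N : ℕ} {G H : ℝ → ℂ → ℂ → ℂ} (hG : IsF N G) (hH : IsF N H) :
    IsF N (fun t a b => G t a b + H t a b) := by
  obtain ⟨F, hF⟩ := hG
  obtain ⟨F', hF'⟩ := hH
  refine ⟨⟨fun k t => F.co k t + F'.co k t, fun k => (F.cont k).add (F'.cont k)⟩, ?_⟩
  intro t a b
  change G t a b + H t a b = _
  rw [hF, hF']
  unfold Frm.ev
  rw [← sum_add_distrib]
  refine sum_congr rfl fun k _ => ?_
  push_cast; ring

theorem IsF.const (f : ℝ → ℝ) (hf : Continuous f) : IsF 0 (fun t _ _ => (f t : ℂ)) := by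
  refine ⟨⟨fun _ => f, fun _ => hf⟩, ?_⟩
  intro t a b
  simp [Frm.ev]

theorem IsF.zero (N : ℕ) : IsF N (fun _ _ _ => 0) :=
  ⟨⟨fun _ _ => 0, fun _ => continuous_const⟩, fun t a b => by simp [Frm.ev]⟩

theorem sum_shift (N M k : ℕ) (hk : k ≤ N) (g : ℕ → ℂ) (a b : ℂ) :
    ∑ n ∈ range (N + M + 1), (if k ≤ n ∧ n - k ≤ M then g (n - k) else 0) * a ^ n * b ^ (N + M - n) =
      ∑ j ∈ range (M + 1), g j * a ^ (k + j) * b ^ ((N - k) + (M - j)) := by
  have h1 : ∀ n ∈ range (N + M + 1),
      (if k ≤ n ∧ n - k ≤ M then g (n - k) else 0) * a ^ n * b ^ (N + M - n) =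
      if k ≤ n ∧ n - k ≤ M then g (n - k) * a ^ n * b ^ (N + M - n) else 0 := by
    intro n _
    split_ifs <;> simp
  rw [sum_congr rfl h1, ← sum_filter]
  refine sum_nbij' (fun n => n - k) (fun j => k + j) ?_ ?_ ?_ ?_ ?_
  · intro n hn
    simp only [mem_filter, mem_range] at hn ⊢
    omega
  · intro j hj
    simp only [mem_filter, mem_range] at hj ⊢
    omega
  · intro n hn
    simp only [mem_filter, mem_range] at hn
    omega
  · intro j hj
    simp
  · intro n hn
    simp only [mem_filter, mem_range] at hn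
    have e1 : k + (n - k) = n := by omega
    have e2 : (N - k) + (M - (n - k)) = N + M - n := by omega
    rw [e1, e2]

theorem IsF.mul {N M : ℕ} {G H : ℝ → ℂ → ℂ → ℂ} (hG : IsF N G) (hH : IsF M H) :
    IsF (N + M) (fun t a b => G t a b * H t a b) := by
  obtain ⟨F, hF⟩ := hG
  obtain ⟨F', hF'⟩ := hH
  refine ⟨⟨fun n t => ∑ k ∈ range (N + 1),
    if k ≤ n ∧ n - k ≤ M then F.co k t * F'.co (n - k) t else 0, fun n => ?_⟩, ?_⟩
  · refine continuous_finsetSum _ fun k _ => ?_
    split_ifs
    · exact (F.cont k).mul (F'.cont _)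
    · exact continuous_const
  · intro t a b
    change G t a b * H t a b = _
    rw [hF, hF']
    unfold Frm.ev
    dsimp only
    rw [sum_mul_sum]
    have h1 : ∀ n ∈ range (N + M + 1),
        (((∑ k ∈ range (N + 1), if k ≤ n ∧ n - k ≤ M then F.co k t * F'.co (n - k) t else 0 : ℝ)) : ℂ)
          * a ^ n * b ^ (N + M - n) =
        ∑ k ∈ range (N + 1), (F.co k t : ℂ) *
          ((if k ≤ n ∧ n - k ≤ M then ((F'.co (n - k) t : ℝ) : ℂ) else 0) * a ^ n * b ^ (N + M - n)) := by
      intro n _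
      push_cast
      rw [sum_mul, sum_mul]
      refine sum_congr rfl fun k _ => ?_
      split_ifs <;> simp [mul_assoc]
    rw [sum_congr rfl h1, sum_comm (s := range (N + M + 1))]
    refine sum_congr rfl fun k hk => ?_
    have hk' : k ≤ N := by simpa [Nat.lt_succ_iff] using hk
    have h2 := sum_shift N M k hk' (fun j => ((F'.co j t : ℝ) : ℂ)) a b
    have h3 : ∑ n ∈ range (N + M + 1), (F.co k t : ℂ) *
          ((if k ≤ n ∧ n - k ≤ M then ((F'.co (n - k) t : ℝ) : ℂ) else 0) * a ^ n * b ^ (N + M - n)) =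
        (F.co k t : ℂ) * ∑ j ∈ range (M + 1), ((F'.co j t : ℝ) : ℂ) * a ^ (k + j) *
          b ^ ((N - k) + (M - j)) := by
      rw [← h2, mul_sum]
    rw [h3, mul_sum]
    refine sum_congr rfl fun j _ => ?_
    rw [pow_add, pow_add]
    ring

theorem IsF.congr {N M : ℕ} {G : ℝ → ℂ → ℂ → ℂ} (hG : IsF N G) (h : N = M) : IsF M G := h ▸ hG

theorem IsF.pow {N : ℕ} {G : ℝ → ℂ → ℂ → ℂ} (hG : IsF N G) (m : ℕ) :
    IsF (N * m) (fun t a b => G t a b ^ m) := by
  induction m with
  | zero =>
    simp only [pow_zero]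
    have := IsF.const (fun _ => 1) continuous_const
    simpa using this
  | succ m ih =>
    have := ih.mul hG
    simp only [pow_succ]
    exact this.congr (by ring)

theorem IsF.sum {N : ℕ} (s : Finset ℕ) (G : ℕ → ℝ → ℂ → ℂ → ℂ) (hG : ∀ k ∈ s, IsF N (G k)) :
    IsF N (fun t a b => ∑ k ∈ s, G k t a b) := by
  classical
  induction s using Finset.induction_on with
  | empty => simpa using IsF.zero N
  | insert k s hk ih =>
    have h1 := (hG k (mem_insert_self _ _)).add (ih (fun j hj => hG j (mem_insert_of_mem hj)))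
    have h2 : (fun t a b => ∑ j ∈ insert k s, G j t a b) =
        fun t a b => G k t a b + ∑ j ∈ s, G j t a b := by
      funext t a b
      rw [sum_insert hk]
    rw [h2]; exact h1

/-- power sums of the two numbers with sum `-B` and product `P` -/
def pw (B P : ℂ) : ℕ → ℂ
  | 0 => 2
  | 1 => -B
  | (m + 2) => -B * pw B P (m + 1) - P * pw B P m

theorem pw_eq (s t : ℂ) (m : ℕ) : pw (-(s + t)) (s * t) m = s ^ m + t ^ m := by
  induction m using Nat.twoStepInduction with
  | zero => simp [pw]; norm_num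
  | one => simp [pw]
  | more m h1 h2 =>
    rw [pw, h1, h2]; ring

/-- the resultant of a form with coefficients `f` and a quadratic form -/
noncomputable def res (N : ℕ) (f : ℕ → ℂ) (A B C : ℂ) : ℂ :=
  ∑ k ∈ range (N + 1), (f k * f k * C ^ k * A ^ (N - k) +
    ∑ j ∈ range k, f j * f k * C ^ j * A ^ (N - k) * pw B (A * C) (k - j))

theorem sum_sym (n : ℕ) (a : ℕ → ℕ → ℂ) :
    ∑ k ∈ range n, ∑ j ∈ range n, a k j =
      ∑ k ∈ range n, (a k k + ∑ j ∈ range k, (a k j + a j k)) := by
  induction n with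
  | zero => simp
  | succ n ih =>
    rw [sum_range_succ, sum_range_succ (fun k => a k k + _), ← ih]
    have : ∑ k ∈ range n, ∑ j ∈ range (n + 1), a k j =
        ∑ k ∈ range n, ∑ j ∈ range n, a k j + ∑ k ∈ range n, a k n := by
      rw [← sum_add_distrib]
      refine sum_congr rfl fun k _ => ?_
      rw [sum_range_succ]
    rw [this, sum_range_succ, sum_add_distrib]
    ring

theorem res_eq (N : ℕ) (f : ℕ → ℂ) (v0 v1 w0 w1 : ℂ) :
    res N f (v1 * w1) (-(v1 * w0 + v0 * w1)) (v0 * w0) =
      (∑ k ∈ range (N + 1), f k * v0 ^ k * v1 ^ (N - k)) *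
      (∑ k ∈ range (N + 1), f k * w0 ^ k * w1 ^ (N - k)) := by
  rw [sum_mul_sum, sum_sym]
  unfold res
  refine sum_congr rfl fun k hk => ?_
  have hk' : k ≤ N := by simpa [Nat.lt_succ_iff] using hk
  congr 1
  · rw [mul_pow, mul_pow]; ring
  · refine sum_congr rfl fun j hj => ?_
    have hj' : j < k := by simpa using hj
    have e1 : v1 * w1 * (v0 * w0) = (v1 * w0) * (v0 * w1) := by ring
    rw [e1, pw_eq]
    obtain ⟨d, rfl⟩ := Nat.exists_eq_add_of_le hj'.le
    obtain ⟨e, rfl⟩ := Nat.exists_eq_add_of_le hk'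
    have h1 : j + d + e - (j + d) = e := by omega
    have h2 : j + d - j = d := by omega
    have h3 : j + d + e - j = d + e := by omega
    rw [h1, h2, h3]
    simp only [mul_pow, pow_add]
    ring

theorem IsF.pw {G H : ℝ → ℂ → ℂ → ℂ} {N : ℕ} (hG : IsF N G) (hH : IsF (2 * N) H) (m : ℕ) :
    IsF (N * m) (fun t a b => pw (G t a b) (H t a b) m) := by
  induction m using Nat.twoStepInduction with
  | zero => 
    have := IsF.const (fun _ => 2) continuous_const
    simpa [H858RG.pw] using this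
  | one =>
    have := (IsF.const (fun _ => -1) continuous_const).mul hG
    have h2 : (fun t a b => H858RG.pw (G t a b) (H t a b) 1) =
        fun t a b => ((-1 : ℝ) : ℂ) * G t a b := by
      funext t a b; simp [H858RG.pw]
    rw [h2]
    exact this.congr (by ring)
  | more m h1 h2 =>
    have e1 := ((IsF.const (fun _ => -1) continuous_const).mul (hG.mul h2))
    have e2 := ((IsF.const (fun _ => -1) continuous_const).mul (hH.mul h1))
    have h3 : (fun t a b => H858RG.pw (G t a b) (H t a b) (m + 2)) =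
        fun t a b => ((-1 : ℝ) : ℂ) * (G t a b * H858RG.pw (G t a b) (H t a b) (m + 1)) +
          ((-1 : ℝ) : ℂ) * (H t a b * H858RG.pw (G t a b) (H t a b) m) := by
      funext t a b
      rw [H858RG.pw]; push_cast; ring
    rw [h3]
    refine (e1.congr ?_).add (e2.congr ?_)
    · ring
    · ring

/-- existence of the resultant form -/
theorem exists_T {N : ℕ} (F : Frm N) {A B C : ℝ → ℂ → ℂ → ℂ} (hA : IsF 2 A) (hB : IsF 2 B)
    (hC : IsF 2 C) :
    IsF (2 * N) (fun t a b => res N (fun k => (F.co k t : ℂ)) (A t a b) (B t a b) (C t a b)) := by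
  unfold res
  refine IsF.sum _ _ fun k hk => ?_
  have hk' : k ≤ N := by simpa [Nat.lt_succ_iff] using hk
  refine IsF.add ?_ ?_
  · have h1 := (((IsF.const _ (F.cont k)).mul (IsF.const _ (F.cont k))).mul (hC.pow k)).mul
      (hA.pow (N - k))
    refine h1.congr ?_
    omega
  · refine IsF.sum _ _ fun j hj => ?_
    have hj' : j < k := by simpa using hj
    have h1 := ((((IsF.const _ (F.cont j)).mul (IsF.const _ (F.cont k))).mul (hC.pow j)).mul
      (hA.pow (N - k))).mul (IsF.pw (N := 2) hB ((hA.mul hC).congr (by norm_num)) (k - j))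
    refine h1.congr ?_
    omega

end Pool.Agent.H858RG
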