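import Mathlib

set_option autoImplicit false

namespace Pool.Agent.H858RG

/-- the edges of the cube together with one long diagonal -/
def EE : Finset (Sym2 (Fin 8)) :=
  {s(6, 7), s(0, 1), s(1, 2), s(2, 3), s(3, 4), s(4, 5), s(5, 0),
    s(1, 6), s(3, 6), s(5, 6), s(0, 7), s(2, 7), s(4, 7)}

theorem EE_card : EE.card = 13 := by decide +kernel

theorem EE_diag : ∀ e ∈ EE, ¬ e.IsDiag := by decide +kernel

theorem EE_laman : ∀ S : Finset (Fin 8), 2 ≤ S.card →
    (EE.filter (fun e => ∀ v ∈ e, v ∈ S)).card + 3 ≤ 2 * S.card := by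
  decide +kernel

end Pool.Agent.H858RG
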