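import Pool.Agent.H858RG.Graph

set_option autoImplicit false

namespace Pool.Agent.H858RG

/-- the cube together with one long diagonal -/
def G8 : SimpleGraph (Fin 8) := SimpleGraph.fromEdgeSet (EE : Set (Sym2 (Fin 8)))

theorem G8_adj (i j : Fin 8) : G8.Adj i j ↔ s(i, j) ∈ EE ∧ i ≠ j := by
  unfold G8
  rw [SimpleGraph.fromEdgeSet_adj]
  rfl

def aa {R : Type} [CommRing R] (p : Fin 8 → Fin 2 → R) (i j h : Fin 8) : R :=
  (p i 1 - p j 1) * (p i 0 - p h 0) - (p i 0 - p j 0) * (p i 1 - p h 1)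

def bb {R : Type} [CommRing R] (p : Fin 8 → Fin 2 → R) (i j h : Fin 8) : R :=
  (p i 1 - p j 1) * (p j 0 - p h 0) - (p i 0 - p j 0) * (p j 1 - p h 1)

def FFp {R : Type} [CommRing R] (p : Fin 8 → Fin 2 → R) : R :=
  bb p 0 1 6 * bb p 1 2 7 * bb p 2 3 6 * bb p 3 4 7 * bb p 4 5 6 *
  (aa p 0 1 7 * aa p 1 2 6 * aa p 2 3 7 * aa p 3 4 6 * aa p 4 5 7 * aa p 5 0 6 -
    bb p 0 1 6 * bb p 1 2 7 * bb p 2 3 6 * bb p 3 4 7 * bb p 4 5 6 * bb p 5 0 7)

theorem FFp_map {R S : Type} [CommRing R] [CommRing S] (φ : R →+* S) (p : Fin 8 → Fin 2 → R) :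
    φ (FFp p) = FFp (fun i k => φ (p i k)) := by
  simp only [FFp, aa, bb, map_mul, map_sub]

def zz : Fin 8 → Fin 2 → ℚ := ![![1, 1], ![0, 0], ![1, 1], ![0, 1], ![3, 0], ![0, 0], ![0, 2], ![2, 0]]

theorem FFp_zz : FFp zz ≠ 0 := by decide +kernel

theorem FFp_ne (p : Fin 8 → Fin 2 → ℝ)
    (hp : AlgebraicIndependent ℚ (fun x : Fin 8 × Fin 2 => p x.1 x.2)) : FFp p ≠ 0 := by
  intro h
  let P : MvPolynomial (Fin 8 × Fin 2) ℚ := FFp (fun i k => MvPolynomial.X (i, k))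
  have h1 : MvPolynomial.aeval (R := ℚ) (fun x : Fin 8 × Fin 2 => p x.1 x.2) P = 0 := by
    have h2 := FFp_map (MvPolynomial.aeval (R := ℚ)
      (fun x : Fin 8 × Fin 2 => p x.1 x.2)).toRingHom (fun i k => MvPolynomial.X (i, k))
    change (MvPolynomial.aeval (R := ℚ) (fun x : Fin 8 × Fin 2 => p x.1 x.2)) P = _ at h2
    rw [h2]
    have h3 : (fun i k => (MvPolynomial.aeval (R := ℚ)
      (fun x : Fin 8 × Fin 2 => p x.1 x.2)).toRingHom (MvPolynomial.X (i, k))) = p := by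
      funext i k
      exact MvPolynomial.aeval_X _ _
    rw [h3]
    exact h
  have h2 : P = 0 := by
    rw [AlgebraicIndependent] at hp
    exact hp (h1.trans (map_zero _).symm)
  apply FFp_zz
  have h3 := FFp_map (MvPolynomial.eval (fun x : Fin 8 × Fin 2 => zz x.1 x.2))
    (fun i k => MvPolynomial.X (i, k))
  change (MvPolynomial.eval (fun x : Fin 8 × Fin 2 => zz x.1 x.2)) P = _ at h3
  rw [h2, map_zero] at h3
  have h4 : (fun i k => (MvPolynomial.eval (fun x : Fin 8 × Fin 2 => zz x.1 x.2))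
      (MvPolynomial.X (i, k))) = zz := by
    funext i k
    exact MvPolynomial.eval_X _
  rw [h4] at h3
  exact h3.symm

theorem perp {x0 x1 y0 y1 : ℝ} (hx : x0 ^ 2 + x1 ^ 2 ≠ 0) (h : x0 * y0 + x1 * y1 = 0) :
    ∃ μ : ℝ, y0 = -μ * x1 ∧ y1 = μ * x0 := by
  refine ⟨(x0 * y1 - x1 * y0) / (x0 ^ 2 + x1 ^ 2), ?_, ?_⟩
  · field_simp
    linear_combination x0 * h
  · field_simp
    linear_combination x1 * h

theorem dist_ne (p : Fin 8 → Fin 2 → ℝ)
    (hp : AlgebraicIndependent ℚ (fun x : Fin 8 × Fin 2 => p x.1 x.2)) {i j : Fin 8} (hij : i ≠ j) :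
    (p i 0 - p j 0) ^ 2 + (p i 1 - p j 1) ^ 2 ≠ 0 := by
  intro h
  have h1 : p i 0 - p j 0 = 0 := by nlinarith [sq_nonneg (p i 0 - p j 0), sq_nonneg (p i 1 - p j 1)]
  have h4 := hp.injective (a₁ := (i, 0)) (a₂ := (j, 0)) (sub_eq_zero.1 h1)
  exact hij (congrArg Prod.fst h4)

theorem cyc_edge {u : Fin 8 → Fin 2 → ℝ} {p : Fin 8 → Fin 2 → ℝ} {i j h h' : Fin 8} {l m m' : ℝ}
    (he : (p i 0 - p j 0) * (u i 0 - u j 0) + (p i 1 - p j 1) * (u i 1 - u j 1) = 0)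
    (hh0 : u h 0 - u h' 0 = - l * (p h 1 - p h' 1)) (hh1 : u h 1 - u h' 1 = l * (p h 0 - p h' 0))
    (hi0 : u i 0 - u h 0 = - m * (p i 1 - p h 1)) (hi1 : u i 1 - u h 1 = m * (p i 0 - p h 0))
    (hj0 : u j 0 - u h' 0 = - m' * (p j 1 - p h' 1)) (hj1 : u j 1 - u h' 1 = m' * (p j 0 - p h' 0)) :
    aa p i j h * (m - l) = bb p i j h' * (m' - l) := by
  unfold aa bb
  linear_combination he - (p i 0 - p j 0) * (hi0 + hh0 - hj0) - (p i 1 - p j 1) * (hi1 + hh1 - hj1)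

theorem rigid8 (p : Fin 8 → Fin 2 → ℝ)
    (hp : AlgebraicIndependent ℚ (fun x : Fin 8 × Fin 2 => p x.1 x.2)) (u : Fin 8 → Fin 2 → ℝ)
    (h : ∀ i j, G8.Adj i j → ∑ k, (p i k - p j k) * (u i k - u j k) = 0) :
    ∀ i j, ∑ k, (p i k - p j k) * (u i k - u j k) = 0 := by
  have hF := FFp_ne p hp
  unfold FFp at hF
  have he : ∀ i j, s(i, j) ∈ EE → i ≠ j →
      (p i 0 - p j 0) * (u i 0 - u j 0) + (p i 1 - p j 1) * (u i 1 - u j 1) = 0 := by
    intro i j h1 h2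
    have := h i j ((G8_adj i j).2 ⟨h1, h2⟩)
    rwa [Fin.sum_univ_two] at this
  have hk : ∀ i j, s(i, j) ∈ EE → i ≠ j → ∃ m : ℝ, u i 0 - u j 0 = - m * (p i 1 - p j 1) ∧
      u i 1 - u j 1 = m * (p i 0 - p j 0) := fun i j h1 h2 =>
    perp (dist_ne p hp h2) (he i j h1 h2)
  obtain ⟨l, l0, l1⟩ := hk 7 6 (by decide +kernel) (by decide)
  have l0' : u 6 0 - u 7 0 = - l * (p 6 1 - p 7 1) := by linear_combination -l0
  have l1' : u 6 1 - u 7 1 = l * (p 6 0 - p 7 0) := by linear_combination -l1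
  obtain ⟨m0, a0, b0⟩ := hk 0 7 (by decide +kernel) (by decide)
  obtain ⟨m1, a1, b1⟩ := hk 1 6 (by decide +kernel) (by decide)
  obtain ⟨m2, a2, b2⟩ := hk 2 7 (by decide +kernel) (by decide)
  obtain ⟨m3, a3, b3⟩ := hk 3 6 (by decide +kernel) (by decide)
  obtain ⟨m4, a4, b4⟩ := hk 4 7 (by decide +kernel) (by decide)
  obtain ⟨m5, a5, b5⟩ := hk 5 6 (by decide +kernel) (by decide)
  have e0 := cyc_edge (he 0 1 (by decide +kernel) (by decide)) l0 l1 a0 b0 a1 b1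
  have e1 := cyc_edge (he 1 2 (by decide +kernel) (by decide)) l0' l1' a1 b1 a2 b2
  have e2 := cyc_edge (he 2 3 (by decide +kernel) (by decide)) l0 l1 a2 b2 a3 b3
  have e3 := cyc_edge (he 3 4 (by decide +kernel) (by decide)) l0' l1' a3 b3 a4 b4
  have e4 := cyc_edge (he 4 5 (by decide +kernel) (by decide)) l0 l1 a4 b4 a5 b5
  have e5 := cyc_edge (he 5 0 (by decide +kernel) (by decide)) l0' l1' a5 b5 a0 b0
  generalize aa p 0 1 7 = A0 at *
  generalize aa p 1 2 6 = A1 at *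
  generalize aa p 2 3 7 = A2 at *
  generalize aa p 3 4 6 = A3 at *
  generalize aa p 4 5 7 = A4 at *
  generalize aa p 5 0 6 = A5 at *
  generalize bb p 0 1 6 = B0 at *
  generalize bb p 1 2 7 = B1 at *
  generalize bb p 2 3 6 = B2 at *
  generalize bb p 3 4 7 = B3 at *
  generalize bb p 4 5 6 = B4 at *
  generalize bb p 5 0 7 = B5 at *
  have n6 := right_ne_zero_of_mul hF
  have n5 := left_ne_zero_of_mul hF
  have nB4 := right_ne_zero_of_mul n5
  have n4 := left_ne_zero_of_mul n5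
  have nB3 := right_ne_zero_of_mul n4
  have n3 := left_ne_zero_of_mul n4
  have nB2 := right_ne_zero_of_mul n3
  have n2 := left_ne_zero_of_mul n3
  have nB1 := right_ne_zero_of_mul n2
  have nB0 := left_ne_zero_of_mul n2
  have k0 : m0 - l = 0 := by
    have : (A0 * A1 * A2 * A3 * A4 * A5 - B0 * B1 * B2 * B3 * B4 * B5) * (m0 - l) = 0 := by
      linear_combination A1 * A2 * A3 * A4 * A5 * e0 + B0 * A2 * A3 * A4 * A5 * e1 +
        B0 * B1 * A3 * A4 * A5 * e2 + B0 * B1 * B2 * A4 * A5 * e3 +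
        B0 * B1 * B2 * B3 * A5 * e4 + B0 * B1 * B2 * B3 * B4 * e5
    exact (mul_eq_zero.1 this).resolve_left n6
  have k1 : m1 - l = 0 := by
    rw [k0, mul_zero] at e0
    exact (mul_eq_zero.1 e0.symm).resolve_left nB0
  have k2 : m2 - l = 0 := by
    rw [k1, mul_zero] at e1
    exact (mul_eq_zero.1 e1.symm).resolve_left nB1
  have k3 : m3 - l = 0 := by
    rw [k2, mul_zero] at e2
    exact (mul_eq_zero.1 e2.symm).resolve_left nB2
  have k4 : m4 - l = 0 := by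
    rw [k3, mul_zero] at e3
    exact (mul_eq_zero.1 e3.symm).resolve_left nB3
  have k5 : m5 - l = 0 := by
    rw [k4, mul_zero] at e4
    exact (mul_eq_zero.1 e4.symm).resolve_left nB4
  have q0 : m0 = l := by linarith
  have q1 : m1 = l := by linarith
  have q2 : m2 = l := by linarith
  have q3 : m3 = l := by linarith
  have q4 : m4 = l := by linarith
  have q5 : m5 = l := by linarith
  subst q0
  subst q1
  subst q2
  subst q3
  subst q4
  subst q5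
  have hall : ∀ v : Fin 8, u v 0 - u 6 0 = - m5 * (p v 1 - p 6 1) ∧
      u v 1 - u 6 1 = m5 * (p v 0 - p 6 0) := by
    intro v
    have c0 : u 0 0 - u 6 0 = - m5 * (p 0 1 - p 6 1) ∧ u 0 1 - u 6 1 = m5 * (p 0 0 - p 6 0) :=
      ⟨by linear_combination a0 + l0, by linear_combination b0 + l1⟩
    have c2 : u 2 0 - u 6 0 = - m5 * (p 2 1 - p 6 1) ∧ u 2 1 - u 6 1 = m5 * (p 2 0 - p 6 0) :=
      ⟨by linear_combination a2 + l0, by linear_combination b2 + l1⟩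
    have c4 : u 4 0 - u 6 0 = - m5 * (p 4 1 - p 6 1) ∧ u 4 1 - u 6 1 = m5 * (p 4 0 - p 6 0) :=
      ⟨by linear_combination a4 + l0, by linear_combination b4 + l1⟩
    have c6 : u 6 0 - u 6 0 = - m5 * (p 6 1 - p 6 1) ∧ u 6 1 - u 6 1 = m5 * (p 6 0 - p 6 0) :=
      ⟨by ring, by ring⟩
    fin_cases v
    · exact c0
    · exact ⟨a1, b1⟩
    · exact c2
    · exact ⟨a3, b3⟩
    · exact c4
    · exact ⟨a5, b5⟩
    · exact c6
    · exact ⟨l0, l1⟩
  intro i j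
  rw [Fin.sum_univ_two]
  obtain ⟨i0, i1⟩ := hall i
  obtain ⟨j0, j1⟩ := hall j
  linear_combination (p i 0 - p j 0) * (i0 - j0) + (p i 1 - p j 1) * (i1 - j1)

end Pool.Agent.H858RG
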