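import Pool.Agent.H858RG.Cases

set_option autoImplicit false
set_option linter.unusedSectionVars false

namespace Pool.Agent.H858RG

open Finset Filter Topology

/-- exponents of the special class -/
def sp : ℕ → ℕ
  | 0 => 2
  | (n + 1) => sp n + (ex 1 1 n).2

theorem q_scaled (r r' g E E' : ℂ) : q r r' g (r * E) (r' * E') =
    r * r' * ((1 - r ^ 2 * E - r' ^ 2 * E') * (E + E' - E * E') + g * (E * E')) := by
  unfold q; ring

theorem slope_of_sp {a e s : ℂ} {y : ℝ → ℂ} (ha : a ≠ 0)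
    (hy : Tendsto (fun δ : ℝ => (y δ / a - e * (δ : ℂ)) / (δ : ℂ) ^ 2) l0 (𝓝 s)) :
    Tendsto (fun δ : ℝ => y δ / (δ : ℂ)) l0 (𝓝 (a * e)) := by
  have h1 := ((hy.mul l0_id).add_const e).const_mul a
  rw [mul_zero, zero_add] at h1
  refine h1.congr' ?_
  filter_upwards [l0_ne] with δ hδ
  field_simp
  ring

/-- product of two quotients by `δ` -/
theorem scaled_lim {r r' g e s : ℂ} (hr : r ≠ 0) (hr' : r' ≠ 0) {E E' : ℝ → ℂ}
    (hE : Tendsto (fun δ : ℝ => E δ / (δ : ℂ)) l0 (𝓝 e))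
    (hE' : Tendsto (fun δ : ℝ => E' δ / (δ : ℂ)) l0 (𝓝 (-e)))
    (hq : ∀ᶠ δ in l0, q r r' g (r * E δ) (r' * E' δ) = 0)
    (hs : Tendsto (fun δ : ℝ => (E δ - e * (δ : ℂ)) / (δ : ℂ) ^ 2) l0 (𝓝 s)) :
    Tendsto (fun δ : ℝ => (E' δ + e * (δ : ℂ)) / (δ : ℂ) ^ 2) l0 (𝓝 ((g - 1) * e ^ 2 - s)) := by
  have hE0 := div_lim0 hE
  have hE0' := div_lim0 hE'
  have hD : Tendsto (fun δ : ℝ => 1 - r ^ 2 * E δ - r' ^ 2 * E' δ) l0 (𝓝 1) := by
    have := ((hE0.const_mul (r ^ 2)).const_sub 1).sub (hE0'.const_mul (r' ^ 2))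
    simpa using this
  have h1 := ((hE.mul hE').mul ((tdiv (tendsto_const_nhds (x := g)) hD one_ne_zero).const_sub 1)).sub hs
  have h2 : e * -e * (1 - g / 1) - s = (g - 1) * e ^ 2 - s := by ring
  rw [h2] at h1
  refine h1.congr' ?_
  filter_upwards [l0_ne, hq, hD.eventually_ne one_ne_zero] with δ hδ h3 h4
  rw [q_scaled] at h3
  have h5 := (mul_eq_zero.1 h3).resolve_left (mul_ne_zero hr hr')
  have h6 : E δ + E' δ = E δ * E' δ * (1 - g / (1 - r ^ 2 * E δ - r' ^ 2 * E' δ)) := by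
    have h7 : g / (1 - r ^ 2 * E δ - r' ^ 2 * E' δ) * (1 - r ^ 2 * E δ - r' ^ 2 * E' δ) = g :=
      div_mul_cancel₀ _ h4
    have h8 : (1 - r ^ 2 * E δ - r' ^ 2 * E' δ) * (E δ + E' δ -
        E δ * E' δ * (1 - g / (1 - r ^ 2 * E δ - r' ^ 2 * E' δ))) = 0 := by
      linear_combination h5 + E δ * E' δ * h7
    exact sub_eq_zero.1 ((mul_eq_zero.1 h8).resolve_left h4)
  have h9 : E' δ = E δ * E' δ * (1 - g / (1 - r ^ 2 * E δ - r' ^ 2 * E' δ)) - E δ := by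
    linear_combination h6
  have h10 : (E' δ + e * (δ : ℂ)) / (δ : ℂ) ^ 2 =
    ((E δ * E' δ * (1 - g / (1 - r ^ 2 * E δ - r' ^ 2 * E' δ)) - E δ) + e * (δ : ℂ)) /
      (δ : ℂ) ^ 2 := by rw [← h9]
  rw [h10]
  generalize g / (1 - r ^ 2 * E δ - r' ^ 2 * E' δ) = X
  field_simp
  ring

variable {r g : ℕ → ℝ} (hG : Gen r g)
include hG

theorem caseS (n : ℕ) (hn : n ≤ 5) :
    (∀ s : ℂ, s ∈ K0 r (VS g n) → ∀ y : ℝ → ℂ,
      Tendsto (fun δ : ℝ => (y δ / (r n : ℂ) - (-(-1) ^ n / (r 5 : ℂ)) * (δ : ℂ)) / (δ : ℂ) ^ 2)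
        l0 (𝓝 s) →
      Ord (fun δ => (E r g n).1 δ (y δ) 1) (sp n)) := by
  have h5 := hG.rC 5
  have h0 := hG.rC 0
  induction n with
  | zero =>
    intro s hs y hy
    have hm5 := r_mem r (VS g 0) (i := 5) (by omega)
    have hy1 := slope_of_sp h0 hy
    have hy0 := div_lim0 hy1
    rw [pow_zero] at hy hy1
    refine ⟨(r 0 : ℂ) * r 5 * (s + (1 - (g 5 : ℂ)) / (r 5 : ℂ) ^ 2), ?_, ?_⟩
    · refine mul_ne_zero (mul_ne_zero h0 h5) ?_
      intro h
      apply g5_notMem hG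
      have : (g 5 : ℂ) = s * (r 5 : ℂ) ^ 2 + 1 := by
        field_simp at h
        linear_combination -h
      rw [this]
      exact IntermediateField.add_mem _ (IntermediateField.mul_mem _ hs
        (pow_mem hm5 2)) (IntermediateField.one_mem _)
    · have hY : Tendsto (fun δ : ℝ => y δ / (r 0 : ℂ) / (δ : ℂ)) l0 (𝓝 (-1 / (r 5 : ℂ))) := by
        have h1 := hy1.div_const (r 0 : ℂ)
        have h2 : (r 0 : ℂ) * (-1 / (r 5 : ℂ)) / r 0 = -1 / (r 5 : ℂ) := by field_simp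
        rw [h2] at h1
        refine h1.congr fun δ => ?_
        ring
      have hY0 := div_lim0 hY
      have hD : Tendsto (fun δ : ℝ => 1 - (r 0 : ℂ) ^ 2 * (y δ / (r 0 : ℂ)) -
          (r 5 : ℂ) ^ 2 * ((δ : ℂ) / r 5)) l0 (𝓝 1) := by
        have := ((hY0.const_mul ((r 0 : ℂ) ^ 2)).const_sub 1).sub
          ((l0_id.div_const (r 5 : ℂ)).const_mul ((r 5 : ℂ) ^ 2))
        simpa using this
      have h1 := ((hD.mul (hy.sub (hY.mul_const (1 / (r 5 : ℂ))))).add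
        ((hY.mul_const (1 / (r 5 : ℂ))).const_mul (g 5 : ℂ))).const_mul ((r 0 : ℂ) * r 5)
      have h2 : (r 0 : ℂ) * r 5 * (1 * (s - -1 / (r 5 : ℂ) * (1 / (r 5 : ℂ))) +
          (g 5 : ℂ) * (-1 / (r 5 : ℂ) * (1 / (r 5 : ℂ)))) =
          (r 0 : ℂ) * r 5 * (s + (1 - (g 5 : ℂ)) / (r 5 : ℂ) ^ 2) := by
        field_simp; ring
      rw [h2] at h1
      refine h1.congr' ?_
      filter_upwards [l0_ne] with δ hδ
      rw [E_zero]
      have e1 : y δ = (r 0 : ℂ) * (y δ / r 0) := by field_simp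
      have e2 : (δ : ℂ) = (r 5 : ℂ) * ((δ : ℂ) / r 5) := by field_simp
      have e3 : q (r 0 : ℂ) (r 5) (g 5) (y δ) (δ : ℂ) =
        q (r 0 : ℂ) (r 5) (g 5) ((r 0 : ℂ) * (y δ / r 0)) ((r 5 : ℂ) * ((δ : ℂ) / r 5)) := by
        rw [← e1, ← e2]
      rw [e3, q_scaled]
      unfold sp
      generalize y δ / (r 0 : ℂ) = Y
      field_simp
      ring
  | succ n ih =>
    intro s hs y hy
    have hn0 := hG.rC n
    have hn1 := hG.rC (n + 1)
    have hs' := VS_mono r g n hs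
    have hy1 := slope_of_sp hn1 hy
    have hpw : ((-1 : ℂ)) ^ n ≠ 0 := pow_ne_zero _ (neg_ne_zero.2 one_ne_zero)
    have hρ0 : (r (n + 1) : ℂ) * (-(-1) ^ (n + 1) / (r 5 : ℂ)) ≠ 0 := by
      refine mul_ne_zero hn1 (div_ne_zero (neg_ne_zero.2 (pow_ne_zero _ (neg_ne_zero.2 one_ne_zero))) h5)
    have hm1 := r_mem r (VS g n) (i := n + 1) (by omega)
    have hm5 := r_mem r (VS g n) (i := 5) (by omega)
    have hone : (-1 : ℂ) ∈ K0 r (VS g n) := IntermediateField.neg_mem _ (IntermediateField.one_mem _)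
    have hρm : (r (n + 1) : ℂ) * (-(-1) ^ (n + 1) / (r 5 : ℂ)) ∈ K0 r (VS g n) := by
      exact IntermediateField.mul_mem _ hm1 (IntermediateField.div_mem _
        (IntermediateField.neg_mem _ (pow_mem hone _)) hm5)
    obtain ⟨y1, y2, he, h1, h2, A0, hA0, hA⟩ := stepZ hG n (by omega) hy1
    have ho2 := (caseII hG n (by omega)).2 _ (Z2_ne hG (by omega) hρ0)
      (slopeZ2 (by omega) hρm) y2 h2
    have hE : Tendsto (fun δ : ℝ => y δ / (r (n + 1) : ℂ) / (δ : ℂ)) l0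
        (𝓝 (-(-1) ^ (n + 1) / (r 5 : ℂ))) := by
      have h3 := hy1.div_const (r (n + 1) : ℂ)
      have h4 : (r (n + 1) : ℂ) * (-(-1) ^ (n + 1) / (r 5 : ℂ)) / r (n + 1) =
        -(-1) ^ (n + 1) / (r 5 : ℂ) := by field_simp
      rw [h4] at h3
      refine h3.congr fun δ => ?_
      ring
    have hE' : Tendsto (fun δ : ℝ => y1 δ / (r n : ℂ) / (δ : ℂ)) l0
        (𝓝 (-(-(-1) ^ (n + 1) / (r 5 : ℂ)))) := by
      have h3 := h1.div_const (r n : ℂ)
      have h4 : -((r n : ℂ) / r (n + 1)) * ((r (n + 1) : ℂ) * (-(-1) ^ (n + 1) / (r 5 : ℂ))) / r n =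
        -(-(-1) ^ (n + 1) / (r 5 : ℂ)) := by field_simp
      rw [h4] at h3
      refine h3.congr fun δ => ?_
      ring
    have hq : ∀ᶠ δ in l0, q (r (n + 1) : ℂ) (r n) (g n) ((r (n + 1) : ℂ) * (y δ / r (n + 1)))
        ((r n : ℂ) * (y1 δ / r n)) = 0 := by
      filter_upwards [he] with δ h3
      have e1 : (r (n + 1) : ℂ) * (y δ / r (n + 1)) = y δ := by field_simp
      have e2 : (r n : ℂ) * (y1 δ / r n) = y1 δ := by field_simp
      rw [e1, e2, q_eq]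
      linear_combination (y1 δ) * h3.1 - h3.2
    have h6 := scaled_lim hn1 hn0 hE hE' hq hy
    have ho1 := ih (by omega) (((g n : ℂ) - 1) * (-(-1) ^ (n + 1) / (r 5 : ℂ)) ^ 2 - s) ?_ y1 ?_
    · have ho3 := comb hA hA0 ho1 ho2 (f := fun δ => (E r g (n + 1)).1 δ (y δ) 1)
        (he.mono fun δ h => E_step r g n _ _ _ _ h.1 h.2)
      have e1 : sp (n + 1) = sp n + (ex 1 1 n).2 := rfl
      rw [e1]
      exact ho3
    · have hgn := g_VS r g n (by omega)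
      exact IntermediateField.sub_mem _ (IntermediateField.mul_mem _
        (IntermediateField.sub_mem _ hgn (IntermediateField.one_mem _))
        (pow_mem (IntermediateField.div_mem _
        (IntermediateField.neg_mem _ (pow_mem hone _)) hm5) 2)) hs'
    · refine h6.congr fun δ => ?_
      congr 1
      rw [pow_succ]
      ring

theorem Psi_caseII : Ord (fun δ => Psi r g δ) 14 := by
  have h1 := caseS hG 5 le_rfl 0 (IntermediateField.zero_mem _) (fun δ => (δ : ℂ)) ?_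
  · exact h1
  · have h2 : Tendsto (fun _ : ℝ => (0 : ℂ)) l0 (𝓝 0) := tendsto_const_nhds
    refine h2.congr fun δ => ?_
    have h5 := hG.rC 5
    have : (-(-1 : ℂ) ^ 5 / (r 5 : ℂ)) = 1 / r 5 := by norm_num
    rw [this]
    ring

end Pool.Agent.H858RG
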