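import Pool.Agent.H858RG.Form

set_option autoImplicit false

namespace Pool.Agent.H858RG

open Finset

/-- the relation between neighbouring nodes -/
def q {K : Type} [CommRing K] (r r' g x y : K) : K :=
  (1 - r * x - r' * y) * (r' * x + r * y - x * y) + g * x * y

/-- coefficients of `q` in the second variable, homogenised -/
def qA {K : Type} [CommRing K] (r r' : K) (u0 u1 : K) : K := r' * (u0 - r * u1) * u1
def qB {K : Type} [CommRing K] (r r' g : K) (u0 u1 : K) : K :=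
  (u1 - r * u0) * (r * u1 - u0) + (g - r' ^ 2) * u0 * u1
def qC {K : Type} [CommRing K] (r r' : K) (u0 u1 : K) : K := r' * u0 * (u1 - r * u0)

theorem q_eq {K : Type} [CommRing K] (r r' g x y : K) :
    q r r' g x y = qA r r' x 1 * y ^ 2 + qB r r' g x 1 * y + qC r r' x 1 := by
  unfold q qA qB qC; ring

theorem q_symm {K : Type} [CommRing K] (r r' g x y : K) : q r r' g x y = q r' r g y x := by
  unfold q; ring

theorem qA_swap {K : Type} [CommRing K] (r r' u0 u1 : K) : qA r r' u1 u0 = qC r r' u0 u1 := by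
  unfold qA qC; ring
theorem qB_swap {K : Type} [CommRing K] (r r' g u0 u1 : K) : qB r r' g u1 u0 = qB r r' g u0 u1 := by
  unfold qB; ring
theorem qC_swap {K : Type} [CommRing K] (r r' u0 u1 : K) : qC r r' u1 u0 = qA r r' u0 u1 := by
  unfold qA qC; ring

theorem isF_quad (p s t : ℝ → ℝ) (hp : Continuous p) (hs : Continuous s) (ht : Continuous t) :
    IsF 2 (fun x a b => (p x : ℂ) * a ^ 2 + (s x : ℂ) * a * b + (t x : ℂ) * b ^ 2) := by
  refine ⟨⟨fun k x => if k = 2 then p x else if k = 1 then s x else t x, fun k => ?_⟩, ?_⟩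
  · split_ifs <;> assumption
  · intro x a b
    simp [Frm.ev, sum_range_succ]
    ring

variable (r g : ℕ → ℝ)

theorem isF_A (n : ℕ) : IsF 2 (fun _ a b => qA (r (n + 1) : ℂ) (r n : ℂ) a b) := by
  have := isF_quad (fun _ => 0) (fun _ => r n) (fun _ => - (r n * r (n + 1)))
    continuous_const continuous_const continuous_const
  refine (congrArg (IsF 2) ?_).mpr this
  funext t a b
  unfold qA; push_cast; ring

theorem isF_C (n : ℕ) : IsF 2 (fun _ a b => qC (r (n + 1) : ℂ) (r n : ℂ) a b) := by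
  have := isF_quad (fun _ => - (r n * r (n + 1))) (fun _ => r n) (fun _ => 0)
    continuous_const continuous_const continuous_const
  refine (congrArg (IsF 2) ?_).mpr this
  funext t a b
  unfold qC; push_cast; ring

theorem isF_B (n : ℕ) : IsF 2 (fun _ a b => qB (r (n + 1) : ℂ) (r n : ℂ) (g n : ℂ) a b) := by
  have := isF_quad (fun _ => r (n + 1)) (fun _ => g n - r n ^ 2 - 1 - r (n + 1) ^ 2)
    (fun _ => r (n + 1)) continuous_const continuous_const continuous_const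
  refine (congrArg (IsF 2) ?_).mpr this
  funext t a b
  unfold qB; push_cast; ring

theorem isF_0 : IsF 2 (fun t a b =>
    qA (r 5 : ℂ) (r 0 : ℂ) t 1 * a ^ 2 + qB (r 5 : ℂ) (r 0 : ℂ) (g 5 : ℂ) t 1 * a * b +
      qC (r 5 : ℂ) (r 0 : ℂ) t 1 * b ^ 2) := by
  have := isF_quad (fun t => qA (r 5) (r 0) t 1) (fun t => qB (r 5) (r 0) (g 5) t 1)
    (fun t => qC (r 5) (r 0) t 1) (by unfold qA; fun_prop) (by unfold qB; fun_prop)
    (by unfold qC; fun_prop)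
  refine (congrArg (IsF 2) ?_).mpr this
  funext t a b
  unfold qA qB qC; push_cast; ring

/-- the iterated resultants -/
noncomputable def E : (n : ℕ) → {G : ℝ → ℂ → ℂ → ℂ // IsF (2 ^ (n + 1)) G}
  | 0 => ⟨fun t a b => qA (r 5 : ℂ) (r 0 : ℂ) t 1 * a ^ 2 +
      qB (r 5 : ℂ) (r 0 : ℂ) (g 5 : ℂ) t 1 * a * b + qC (r 5 : ℂ) (r 0 : ℂ) t 1 * b ^ 2, isF_0 r g⟩
  | (n + 1) => ⟨fun t a b => res (2 ^ (n + 1)) (fun k => ((Classical.choose (E n).2).co k t : ℂ))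
      (qA (r (n + 1) : ℂ) (r n : ℂ) a b) (qB (r (n + 1) : ℂ) (r n : ℂ) (g n : ℂ) a b)
      (qC (r (n + 1) : ℂ) (r n : ℂ) a b),
      (exists_T (Classical.choose (E n).2) (isF_A r n) (isF_B r g n) (isF_C r n)).congr (by ring)⟩

theorem E_zero (t : ℝ) (x : ℂ) : (E r g 0).1 t x 1 = q (r 0 : ℂ) (r 5) (g 5) x t := by
  rw [q_symm, q_eq]
  simp [E]

theorem E_ev (n : ℕ) (t : ℝ) (a b : ℂ) :
    (E r g n).1 t a b = (Classical.choose (E r g n).2).ev t a b :=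
  Classical.choose_spec (E r g n).2 t a b

theorem E_succ (n : ℕ) (t : ℝ) (u0 u1 v0 v1 w0 w1 : ℂ)
    (hA : v1 * w1 = qA (r (n + 1) : ℂ) (r n : ℂ) u0 u1)
    (hB : -(v1 * w0 + v0 * w1) = qB (r (n + 1) : ℂ) (r n : ℂ) (g n : ℂ) u0 u1)
    (hC : v0 * w0 = qC (r (n + 1) : ℂ) (r n : ℂ) u0 u1) :
    (E r g (n + 1)).1 t u0 u1 = (E r g n).1 t v0 v1 * (E r g n).1 t w0 w1 := by
  rw [E_ev r g n, E_ev r g n]
  change res (2 ^ (n + 1)) _ _ _ _ = _
  rw [← hA, ← hB, ← hC, res_eq]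
  rfl

theorem E_smul (n : ℕ) (t : ℝ) (c a b : ℂ) :
    (E r g n).1 t (c * a) (c * b) = c ^ (2 ^ (n + 1)) * (E r g n).1 t a b := by
  rw [E_ev, E_ev, Frm.ev_smul]

theorem E_conj (n : ℕ) (t : ℝ) (a b : ℂ) :
    (starRingEnd ℂ) ((E r g n).1 t a b) =
      (E r g n).1 t ((starRingEnd ℂ) a) ((starRingEnd ℂ) b) := by
  rw [E_ev, E_ev, Frm.ev_conj]

theorem exists_factor (A B C : ℂ) : ∃ v0 v1 w0 w1 : ℂ,
    v1 * w1 = A ∧ -(v1 * w0 + v0 * w1) = B ∧ v0 * w0 = C := by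
  by_cases hA : A = 0
  · subst hA
    exact ⟨1, 0, C, -B, by ring, by ring, by ring⟩
  · obtain ⟨s, hs⟩ := IsAlgClosed.exists_pow_nat_eq (B ^ 2 - 4 * A * C) (n := 2) (by norm_num)
    refine ⟨(-B + s) / (2 * A), 1, (-B - s) / 2, A, by ring, ?_, ?_⟩
    · field_simp; ring
    · field_simp
      linear_combination (-1 : ℂ) * hs

theorem E_pal (n : ℕ) (t : ℝ) (ht : t ≠ 0) (u0 u1 : ℂ) :
    (E r g n).1 (1 / t) u1 u0 * (t : ℂ) ^ (2 ^ (n + 1)) = (E r g n).1 t u0 u1 := by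
  have ht' : (t : ℂ) ≠ 0 := by exact_mod_cast ht
  induction n generalizing u0 u1 with
  | zero =>
    change (qA (r 5 : ℂ) (r 0 : ℂ) ((1 / t : ℝ) : ℂ) 1 * u1 ^ 2 +
      qB (r 5 : ℂ) (r 0 : ℂ) (g 5 : ℂ) ((1 / t : ℝ) : ℂ) 1 * u1 * u0 +
      qC (r 5 : ℂ) (r 0 : ℂ) ((1 / t : ℝ) : ℂ) 1 * u0 ^ 2) * (t : ℂ) ^ 2 =
      qA (r 5 : ℂ) (r 0 : ℂ) t 1 * u0 ^ 2 +
      qB (r 5 : ℂ) (r 0 : ℂ) (g 5 : ℂ) t 1 * u0 * u1 + qC (r 5 : ℂ) (r 0 : ℂ) t 1 * u1 ^ 2
    unfold qA qB qC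
    push_cast
    field_simp
    ring
  | succ n ih =>
    obtain ⟨v0, v1, w0, w1, hA, hB, hC⟩ := exists_factor (qA (r (n + 1) : ℂ) (r n : ℂ) u0 u1)
      (qB (r (n + 1) : ℂ) (r n : ℂ) (g n : ℂ) u0 u1) (qC (r (n + 1) : ℂ) (r n : ℂ) u0 u1)
    rw [E_succ r g n t u0 u1 v0 v1 w0 w1 hA hB hC,
      E_succ r g n (1 / t) u1 u0 v1 v0 w1 w0 (by rw [qA_swap, ← hC])
        (by rw [qB_swap, ← hB]; ring) (by rw [qC_swap, ← hA]),
      ← ih v0 v1, ← ih w0 w1]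
    rw [pow_succ 2 (n + 1), pow_mul]
    ring

/-- the function whose zeros we look for -/
noncomputable def Psi (t : ℝ) : ℂ := (E r g 5).1 t t 1

theorem Psi_pal (t : ℝ) (ht : t ≠ 0) : Psi r g (1 / t) * (t : ℂ) ^ 128 = Psi r g t := by
  have ht' : (t : ℂ) ≠ 0 := by exact_mod_cast ht
  have h1 := E_pal r g 5 t ht t 1
  have h2 : (E r g 5).1 (1 / t) 1 t = (t : ℂ) ^ 64 * (E r g 5).1 (1 / t) ((1 / t : ℝ) : ℂ) 1 := by
    have := E_smul r g 5 (1 / t) t ((1 / t : ℝ) : ℂ) 1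
    have h3 : (t : ℂ) * ((1 / t : ℝ) : ℂ) = 1 := by push_cast; field_simp
    rw [h3, mul_one] at this
    rw [this]
    rfl
  unfold Psi
  rw [← h1, h2]
  have h4 : (t : ℂ) ^ 128 = (t : ℂ) ^ 64 * (t : ℂ) ^ (2 ^ (5 + 1)) := by
    rw [← pow_add]; norm_num
  rw [h4]
  ring

theorem root_step (n : ℕ) (t : ℝ) (y : ℂ) (hn : (r n : ℂ) ≠ 0) (hy : y ≠ r (n + 1))
    (h0 : (E r g (n + 1)).1 t y 1 = 0) :
    ∃ y' : ℂ, q (r (n + 1) : ℂ) (r n) (g n) y y' = 0 ∧ (E r g n).1 t y' 1 = 0 := by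
  have hA : qA (r (n + 1) : ℂ) (r n : ℂ) y 1 ≠ 0 := by
    unfold qA
    rw [mul_one, mul_one]
    exact mul_ne_zero hn (sub_ne_zero.2 hy)
  set A := qA (r (n + 1) : ℂ) (r n : ℂ) y 1 with hAd
  set B := qB (r (n + 1) : ℂ) (r n : ℂ) (g n : ℂ) y 1 with hBd
  set C := qC (r (n + 1) : ℂ) (r n : ℂ) y 1 with hCd
  obtain ⟨s, hs⟩ := IsAlgClosed.exists_pow_nat_eq (B ^ 2 - 4 * A * C) (n := 2) (by norm_num)
  set y1 := (-B + s) / (2 * A) with hy1
  set y2 := (-B - s) / (2 * A) with hy2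
  have e1 : A * (y1 + y2) = -B := by rw [hy1, hy2]; field_simp; ring
  have e2 : A * (y1 * y2) = C := by
    rw [hy1, hy2]; field_simp; linear_combination (-1 : ℂ) * hs
  rw [E_succ r g n t y 1 y1 1 (A * y2) A (by rw [one_mul]) (by linear_combination -e1)
    (by linear_combination e2)] at h0
  have h2 : (E r g n).1 t (A * y2) A = A ^ (2 ^ (n + 1)) * (E r g n).1 t y2 1 := by
    rw [← E_smul, mul_one]
  rw [h2] at h0
  rcases mul_eq_zero.1 h0 with h | h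
  · refine ⟨y1, ?_, h⟩
    rw [q_eq, ← hAd, ← hBd, ← hCd]
    linear_combination (y1) * e1 - e2
  · rcases mul_eq_zero.1 h with h | h
    · exact absurd h (pow_ne_zero _ hA)
    · refine ⟨y2, ?_, h⟩
      rw [q_eq, ← hAd, ← hBd, ← hCd]
      linear_combination (y2) * e1 - e2

theorem Psi_sq (e : ℝ) (he : e * e = 1) (h4 : r 4 ≠ 0) (h5 : e ≠ r 5) :
    ∃ z : ℝ, Psi r g e = ((z ^ 2 : ℝ) : ℂ) := by
  have he0 : e ≠ 0 := by rintro rfl; norm_num at he
  have heC : (e : ℂ) * e = 1 := by exact_mod_cast he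
  obtain ⟨A, hAd⟩ : ∃ A : ℂ, A = qA (r 5 : ℂ) (r 4 : ℂ) e 1 := ⟨_, rfl⟩
  obtain ⟨B, hBd⟩ : ∃ B : ℂ, B = qB (r 5 : ℂ) (r 4 : ℂ) (g 4 : ℂ) e 1 := ⟨_, rfl⟩
  have hA : A ≠ 0 := by
    rw [hAd]
    unfold qA
    rw [mul_one, mul_one]
    refine mul_ne_zero (by exact_mod_cast h4) (sub_ne_zero.2 (by exact_mod_cast h5))
  have hC : qC (r 5 : ℂ) (r 4 : ℂ) e 1 = A := by
    rw [hAd]; unfold qA qC
    linear_combination (-(r 4 : ℂ) * r 5) * heC
  obtain ⟨y, hroot⟩ : ∃ y : ℂ, A * y ^ 2 + B * y + A = 0 := by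
    obtain ⟨s, hs⟩ := IsAlgClosed.exists_pow_nat_eq (B ^ 2 - 4 * A * A) (n := 2) (by norm_num)
    refine ⟨(-B + s) / (2 * A), ?_⟩
    field_simp; linear_combination hs
  have hy0 : y ≠ 0 := by
    rintro h
    rw [h] at hroot
    simp at hroot
    exact hA hroot
  have hA1 : (starRingEnd ℂ) A = A := by
    rw [hAd]; unfold qA; simp
  have hB1 : (starRingEnd ℂ) B = B := by
    rw [hBd]; unfold qB; simp
  have hpal : ∀ u0 u1 : ℂ, (E r g 4).1 e u1 u0 = (E r g 4).1 e u0 u1 := by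
    intro u0 u1
    have h1 := E_pal r g 4 e he0 u0 u1
    have h2 : 1 / e = e := by field_simp; linarith
    rw [h2] at h1
    have h3 : (e : ℂ) ^ (2 ^ (4 + 1)) = 1 := by
      have : (e : ℂ) ^ (2 ^ (4 + 1)) = ((e : ℂ) ^ 2) ^ (2 ^ 4) := by
        rw [← pow_mul, ← pow_succ']
      rw [this, pow_two, heC, one_pow]
    rw [h3, mul_one] at h1
    exact h1
  have hpw : ∀ x : ℂ, x ^ (2 ^ (4 + 1)) = (x ^ (2 ^ 4)) ^ 2 := by
    intro x
    rw [← pow_mul, ← pow_succ]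
  set Z := (A / y) ^ (2 ^ 4) * (E r g 4).1 e y 1 with hZ
  have hPsi : Psi r g e = Z ^ 2 := by
    unfold Psi
    have h1 := E_succ r g 4 e e 1 y 1 (A / y) A (by rw [one_mul]; exact hAd) ?_ ?_
    · rw [h1]
      have h2 : (E r g 4).1 e (A / y) A = (A / y) ^ (2 ^ (4 + 1)) * (E r g 4).1 e 1 y := by
        rw [← E_smul r g 4 e (A / y) 1 y, mul_one, div_mul_cancel₀ A hy0]
      rw [h2, hpal y 1, hZ, hpw]
      generalize (A / y) ^ (2 ^ 4) = X
      ring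
    · rw [← hBd]
      field_simp
      linear_combination -hroot
    · change y * (A / y) = qC (r 5 : ℂ) (r 4 : ℂ) e 1
      rw [hC]; field_simp
  have hZr : (starRingEnd ℂ) Z = Z := by
    have hcr : A * ((starRingEnd ℂ) y) ^ 2 + B * ((starRingEnd ℂ) y) + A = 0 := by
      have := congrArg (starRingEnd ℂ) hroot
      simp only [map_add, map_mul, map_pow, hA1, hB1, map_zero] at this
      exact this
    have hprod : ((starRingEnd ℂ) y - y) * ((starRingEnd ℂ) y * y - 1) = 0 := by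
      have : A * (((starRingEnd ℂ) y - y) * ((starRingEnd ℂ) y * y - 1)) = 0 := by
        linear_combination (y) * hcr - ((starRingEnd ℂ) y) * hroot
      rcases mul_eq_zero.1 this with h | h
      · exact absurd h hA
      · exact h
    rw [hZ, map_mul, map_pow, map_div₀, hA1, E_conj, map_one]
    rcases mul_eq_zero.1 hprod with h | h
    · rw [sub_eq_zero.1 h]
    · have h' : (starRingEnd ℂ) y = 1 / y := by
        field_simp; linear_combination h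
      rw [h']
      have h2 : (E r g 4).1 e 1 y = y ^ (2 ^ (4 + 1)) * (E r g 4).1 e (1 / y) 1 := by
        rw [← E_smul r g 4 e y (1 / y) 1, mul_one, mul_one_div_cancel hy0]
      rw [hpal y 1] at h2
      rw [h2, hpw]
      have h3 : A / (1 / y) = A / y * y ^ 2 := by field_simp
      rw [h3, mul_pow, ← pow_mul, mul_comm 2 (2 ^ 4), pow_mul]
      generalize (A / y) ^ (2 ^ 4) = X
      generalize y ^ (2 ^ 4) = Y
      ring
  obtain ⟨z, hz⟩ := Complex.conj_eq_iff_real.1 hZr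
  exact ⟨z, by rw [hPsi, hz]; push_cast; ring⟩

end Pool.Agent.H858RG
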